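import Mathlib

/-! A pole of a Gamma factor is a zero of the `L`-function. -/

set_option autoImplicit false

open Complex Filter Topology

namespace Pool.Agent.R314.SX

/-- two entire functions which agree far to the right are equal -/
theorem entire_eq {f g : ℂ → ℂ} (hf : Differentiable ℂ f) (hg : Differentiable ℂ g) {M : ℝ}
    (h : ∀ s : ℂ, M < s.re → f s = g s) : f = g := by
  have h1 : AnalyticOnNhd ℂ f Set.univ := hf.differentiableOn.analyticOnNhd isOpen_univ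
  have h2 : AnalyticOnNhd ℂ g Set.univ := hg.differentiableOn.analyticOnNhd isOpen_univ
  refine h1.eq_of_eventuallyEq h2 (z₀ := ((M + 1 : ℝ) : ℂ)) ?_
  filter_upwards [(isOpen_lt continuous_const Complex.continuous_re).mem_nhds
    (show M < (((M + 1 : ℝ) : ℂ)).re by simp)] with z hz using h z hz

/-- the identity of the completed function with the Gamma factors on the other side -/
theorem gam_id {ι : Type*} (I : Finset ι) (κ : ι → ℂ) {A Ξ : ℂ → ℂ} (hA : Differentiable ℂ A)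
    (hΞ : Differentiable ℂ Ξ) (h : ∀ s : ℂ, 1 < s.re → Ξ s = A s * ∏ i ∈ I, Gammaℝ (s + κ i)) (s : ℂ) :
    Ξ s * ∏ i ∈ I, (Gammaℝ (s + κ i))⁻¹ = A s := by
  have hd : Differentiable ℂ fun s : ℂ => Ξ s * ∏ i ∈ I, (Gammaℝ (s + κ i))⁻¹ := by
    refine hΞ.mul (Differentiable.fun_finsetProd fun i _ => ?_)
    exact differentiable_Gammaℝ_inv.comp (differentiable_id.add_const _)
  refine congrFun (entire_eq hd hA (M := 1 + ∑ i ∈ I, ‖κ i‖) fun s hs => ?_) s
  have hn : 0 ≤ ∑ i ∈ I, ‖κ i‖ := Finset.sum_nonneg fun _ _ => norm_nonneg _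
  rw [h s (by linarith), Finset.prod_inv_distrib, mul_assoc, mul_inv_cancel₀, mul_one]
  rw [Finset.prod_ne_zero_iff]
  intro i hi
  refine Gammaℝ_ne_zero_of_re_pos ?_
  have h1 : ‖κ i‖ ≤ ∑ i ∈ I, ‖κ i‖ := Finset.single_le_sum (fun _ _ => norm_nonneg _) hi
  have h2 := (abs_le.1 (Complex.abs_re_le_norm (κ i))).1
  rw [Complex.add_re]
  linarith

theorem gam_zero' {ι : Type*} (I : Finset ι) (κ : ι → ℂ) {A Ξ : ℂ → ℂ} (hA : Differentiable ℂ A)
    (hΞ : Differentiable ℂ Ξ) (h : ∀ s : ℂ, 1 < s.re → Ξ s = A s * ∏ i ∈ I, Gammaℝ (s + κ i)) {i : ι} (hi : i ∈ I)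
    {x : ℂ} (hx : κ i = -x) : A x = 0 := by
  rw [← gam_id I κ hA hΞ h x, Finset.prod_eq_zero hi, mul_zero]
  rw [hx, inv_eq_zero, Gammaℝ_eq_zero_iff]
  exact ⟨0, by simp⟩

end Pool.Agent.R314.SX
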