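import Mathlib
import Pool.Agent.TH949.TX.Rat4
import Pool.Agent.TH949.TX.MainR

/-! Negative coefficients at every scale: general coefficients over the primes outside a finite set. -/

set_option autoImplicit false

open Complex MeasureTheory Set Filter Topology
open Pool.Agent.W189.TP (DS PS LL LL_nonneg exp_LL rexp_LL)
open Pool.Agent.TH949.TX

namespace Pool.Agent.R314.SX

variable {S : Finset Nat.Primes}

/-- the coefficients `t(p^k) / k` -/
noncomputable def dt (t : PS S × ℕ → ℝ) (x : PS S × ℕ) : ℝ := t x / ((x.2 : ℝ) + 1)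

theorem order_ne_of_zero {F : ℂ → ℂ} {x : ℂ} (han : AnalyticAt ℂ F x) (hFx : F x = 0) :
    meromorphicOrderAt F x ≠ 0 := by
  rw [han.meromorphicOrderAt_eq]
  have h2 : analyticOrderAt F x ≠ 0 := han.analyticOrderAt_ne_zero.2 hFx
  intro h3
  cases h4 : analyticOrderAt F x with
  | top => rw [h4] at h3; exact absurd h3 (by simp)
  | coe k =>
    rw [h4] at h3 h2
    apply h2
    have h5 : ((k : ℤ) : WithTop ℤ) = 0 := h3
    have h6 : (k : ℤ) = 0 := by exact_mod_cast h5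
    have h7 : k = 0 := by exact_mod_cast h6
    rw [h7]
    rfl

/-- **Every scale.** A real zero `x0 > c` of the numerator, and no real zeros `> c` of the denominator. -/
theorem gen_key {t : PS S × ℕ → ℝ}
    (hsum : ∀ τ : ℝ, 1 < τ → Summable fun x : PS S × ℕ => |dt t x| * Real.exp (-(τ * LL x)))
    {U V : ℂ → ℂ} (hU : Differentiable ℂ U) (hV : Differentiable ℂ V) (hV1 : ∀ s : ℂ, 1 < s.re → V s ≠ 0)
    (hE : ∀ s : ℂ, 1 < s.re → U s = V s * cexp (DS (dt t) LL s)) {c : ℝ} (hc0 : 0 ≤ c)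
    (hreal : ∀ x : ℝ, c < x → V (x : ℂ) ≠ 0) {x0 : ℝ} (hx0 : c < x0) (hz : U (x0 : ℂ) = 0)
    {lam : ℝ} (hlam : 0 < lam) :
    ∃ a : ℝ, c < a ∧ ∀ᶠ X : ℝ in atTop, X ^ a ≤ ∑' x : PS S × ℕ, (open Classical in
      if (1 - lam) * Real.log X ≤ LL x ∧ LL x ≤ Real.log X then max 0 (-(t x)) else 0) := by
  classical
  obtain ⟨F, hF, hF1, -, -⟩ := t_quot hU hV ⟨2, hV1 2 (by norm_num)⟩
    ⟨2, by rw [hE 2 (by norm_num)]; exact mul_ne_zero (hV1 2 (by norm_num)) (Complex.exp_ne_zero _)⟩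
  have hFE : ∀ s : ℂ, 1 < s.re → F s = cexp (DS (dt t) LL s) := fun s hs => by
    rw [(hF1 s (hV1 s hs)).1, hE s hs, mul_div_cancel_left₀ _ (hV1 s hs)]
  have han : ∀ x : ℝ, c < x → AnalyticAt ℂ F (x : ℂ) := fun x hx => by
    have hev : ∀ᶠ z in 𝓝 (x : ℂ), V z ≠ 0 := (hV.continuous.continuousAt).eventually_ne (hreal x hx)
    exact analyticAt_iff_eventually_differentiableAt.2 (hev.mono fun z hz => (hF1 z hz).2)
  have hFx : F (x0 : ℂ) = 0 := by
    rw [(hF1 _ (hreal x0 hx0)).1, hz, zero_div]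
  refine ⟨(2 * c + x0) / 3, by linarith, ?_⟩
  refine sum_abs (d := dt t) (c' := (c + x0) / 2) LL_nonneg (fun x => le_max_left _ _) (fun x => ?_) LL_fin
    (by linarith) (by linarith)
    (fun l hl hl1 => main_right LL_nonneg hsum hF hFE (by linarith)
      (fun x hx => (han x (by linarith)).meromorphicOrderAt_nonneg)
      ⟨(x0 : ℂ), by simp only [Complex.ofReal_re]; linarith, order_ne_of_zero (han x0 hx0) hFx⟩ hl hl1) hlam
  unfold dt
  have hk : (0 : ℝ) ≤ x.2 := Nat.cast_nonneg _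
  rw [← neg_div, div_le_iff₀ (by linarith)]
  have h4 : -(t x) ≤ max 0 (-(t x)) := le_max_right _ _
  have h5 : 0 ≤ max 0 (-(t x)) := le_max_left _ _
  nlinarith

/-- a constant factor does not matter -/
theorem pow_const {a b C : ℝ} (hab : a < b) : ∀ᶠ X : ℝ in atTop, C * X ^ a ≤ X ^ b := by
  have h1 : Tendsto (fun X : ℝ => X ^ (b - a)) atTop atTop := tendsto_rpow_atTop (by linarith)
  filter_upwards [h1.eventually_ge_atTop C, eventually_gt_atTop 0] with X h2 h3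
  have h4 : X ^ b = X ^ (b - a) * X ^ a := by
    rw [← Real.rpow_add h3]
    congr 1
    ring
  rw [h4]
  exact mul_le_mul_of_nonneg_right h2 (by positivity)

theorem scale_iff {X : ℝ} (hX : 0 < X) (lam : ℝ) (p : PS S) :
    (1 - lam) * Real.log X ≤ Real.log ((p.1 : ℕ) : ℝ) ↔ X ^ (1 - lam) ≤ ((p.1 : ℕ) : ℝ) := by
  have hp : (0 : ℝ) < ((p.1 : ℕ) : ℝ) := by exact_mod_cast p.1.2.pos
  rw [← Real.log_rpow hX, Real.log_le_log_iff (by positivity) hp]

open scoped Classical in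
theorem gen_fin {t : PS S × ℕ → ℝ} {C : ℝ} (hC : 0 < C) (hb : ∀ x, -(t x) ≤ C) {c lam : ℝ}
    (hk : ∃ a : ℝ, c < a ∧ ∀ᶠ X : ℝ in atTop, X ^ a ≤ ∑' x : PS S × ℕ,
      if (1 - lam) * Real.log X ≤ LL x ∧ LL x ≤ Real.log X then max 0 (-(t x)) else 0) :
    (∀ᶠ X : ℝ in atTop, X ^ c ≤ ∑' x : PS S × ℕ,
      if X ^ (1 - lam) ≤ ((x.1.1 : ℕ) : ℝ) ^ (x.2 + 1) ∧ ((x.1.1 : ℕ) : ℝ) ^ (x.2 + 1) ≤ X then
        max 0 (-(t x)) else 0) ∧
    (1 / 2 ≤ c → ∀ᶠ X : ℝ in atTop, X ^ c ≤ ∑' p : PS S,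
      if X ^ (1 - lam) ≤ ((p.1 : ℕ) : ℝ) ∧ ((p.1 : ℕ) : ℝ) ≤ X then max 0 (-(t (p, 0))) else 0) ∧
    (1 / 2 ≤ c → ∀ᶠ X : ℝ in atTop, X ^ c ≤
      (({p : PS S | X ^ (1 - lam) ≤ ((p.1 : ℕ) : ℝ) ∧ ((p.1 : ℕ) : ℝ) ≤ X ∧ t (p, 0) < 0}.ncard : ℕ) : ℝ)) := by
  obtain ⟨a, hca, hkey⟩ := hk
  have hl2 : ∀ p : PS S, Real.log 2 ≤ Real.log ((p.1 : ℕ) : ℝ) := fun p =>
    Real.log_le_log (by norm_num) (by exact_mod_cast p.1.2.two_le)
  -- the sum over the primes
  have hprime : 1 / 2 ≤ c → ∃ b : ℝ, c < b ∧ ∀ᶠ X : ℝ in atTop, X ^ b ≤ ∑' p : PS S,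
      if (1 - lam) * Real.log X ≤ Real.log ((p.1 : ℕ) : ℝ) ∧ Real.log ((p.1 : ℕ) : ℝ) ≤ Real.log X then
        max 0 (-(t (p, 0))) / C else 0 := by
    intro hc2
    refine ⟨(2 * c + a) / 3, by linarith, ?_⟩
    refine sum_first (P := PS S) (ℓ := fun p => Real.log ((p.1 : ℕ) : ℝ)) hl2 zero_le_one primes_log_fin primes_card
      (w := fun x => max 0 (-(t x)) / C) (fun x => by positivity) (fun x => ?_) (lam := lam)
      (c' := (c + a) / 2) (by linarith) (by linarith) ?_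
    · rw [div_le_one hC]
      exact max_le hC.le (hb x)
    · filter_upwards [hkey, pow_const (C := C) (show (c + a) / 2 < a by linarith)] with X h1 h2
      have h3 : C * X ^ ((c + a) / 2) ≤ _ := h2.trans h1
      have h4 : (∑' x : PS S × ℕ, if (1 - lam) * Real.log X ≤ LL x ∧ LL x ≤ Real.log X then max 0 (-(t x)) else 0) =
          C * ∑' x : PS S × ℕ, (if (1 - lam) * Real.log X ≤ ((x.2 : ℝ) + 1) * Real.log ((x.1.1 : ℕ) : ℝ) ∧
            ((x.2 : ℝ) + 1) * Real.log ((x.1.1 : ℕ) : ℝ) ≤ Real.log X then max 0 (-(t x)) / C else 0) := by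
        rw [← tsum_mul_left]
        refine tsum_congr fun x => ?_
        show (if (1 - lam) * Real.log X ≤ LL x ∧ LL x ≤ Real.log X then max 0 (-(t x)) else 0) =
          C * (if (1 - lam) * Real.log X ≤ LL x ∧ LL x ≤ Real.log X then max 0 (-(t x)) / C else 0)
        split_ifs
        · field_simp
        · simp
      rw [h4] at h3
      exact le_of_mul_le_mul_left h3 hC
  have hconv : ∀ X : ℝ, 0 < X → (∑' p : PS S,
      if (1 - lam) * Real.log X ≤ Real.log ((p.1 : ℕ) : ℝ) ∧ Real.log ((p.1 : ℕ) : ℝ) ≤ Real.log X then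
        max 0 (-(t (p, 0))) / C else 0) = (∑' p : PS S,
      if X ^ (1 - lam) ≤ ((p.1 : ℕ) : ℝ) ∧ ((p.1 : ℕ) : ℝ) ≤ X then max 0 (-(t (p, 0))) else 0) / C := by
    intro X hX
    rw [← tsum_div_const]
    refine tsum_congr fun p => ?_
    have hp : (0 : ℝ) < ((p.1 : ℕ) : ℝ) := by exact_mod_cast p.1.2.pos
    simp only [scale_iff hX, Real.log_le_log_iff hp hX]
    split_ifs
    · rfl
    · simp
  refine ⟨?_, fun hc2 => ?_, fun hc2 => ?_⟩
  · filter_upwards [hkey, eventually_ge_atTop 1] with X h1 h2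
    have h3 : (0 : ℝ) < X := by linarith
    refine (Real.rpow_le_rpow_of_exponent_le h2 hca.le).trans (h1.trans (le_of_eq (tsum_congr fun x => ?_)))
    simp only [le_LL h3, LL_le h3]
  · obtain ⟨b, hcb, h1⟩ := hprime hc2
    filter_upwards [h1, pow_const (C := C⁻¹) hcb, eventually_gt_atTop 0] with X h2 h3 h4
    rw [hconv X h4] at h2
    have h5 := h3.trans h2
    rw [inv_mul_eq_div] at h5
    exact (div_le_div_iff_of_pos_right hC).1 h5
  · obtain ⟨b, hcb, h1⟩ := hprime hc2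
    filter_upwards [h1, eventually_ge_atTop 1] with X h2 h3'
    have h3 : (0 : ℝ) < X := by linarith
    refine (Real.rpow_le_rpow_of_exponent_le h3' hcb.le).trans (h2.trans ?_)
    set E : Set (PS S) := {p : PS S | X ^ (1 - lam) ≤ ((p.1 : ℕ) : ℝ) ∧ ((p.1 : ℕ) : ℝ) ≤ X ∧ t (p, 0) < 0} with hEdef
    have hpos : ∀ p : PS S, (0 : ℝ) < ((p.1 : ℕ) : ℝ) := fun p => by exact_mod_cast p.1.2.pos
    have hEf : E.Finite := (primes_log_fin (S := S) (Real.log X)).subset fun p hp => by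
      show Real.log ((p.1 : ℕ) : ℝ) ≤ Real.log X
      exact (Real.log_le_log_iff (hpos p) h3).2 hp.2.1
    have hzero : ∀ p : PS S, p ∉ hEf.toFinset →
        (if (1 - lam) * Real.log X ≤ Real.log ((p.1 : ℕ) : ℝ) ∧ Real.log ((p.1 : ℕ) : ℝ) ≤ Real.log X then
        max 0 (-(t (p, 0))) / C else 0) = 0 := by
      intro p hp
      split_ifs with h5
      · have h6 : ¬ t (p, 0) < 0 := fun h7 => hp (by
          rw [Set.Finite.mem_toFinset]
          exact ⟨(scale_iff h3 lam p).1 h5.1, (Real.log_le_log_iff (hpos p) h3).1 h5.2, h7⟩)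
        rw [max_eq_left (by linarith [not_lt.1 h6]), zero_div]
      · rfl
    rw [tsum_eq_sum (s := hEf.toFinset) (fun p hp => hzero p hp)]
    calc _ ≤ ∑ p ∈ hEf.toFinset, (1 : ℝ) := by
          refine Finset.sum_le_sum fun p _ => ?_
          split_ifs
          · rw [div_le_one hC]
            exact max_le hC.le (hb _)
          · exact zero_le_one
      _ = ((E.ncard : ℕ) : ℝ) := by
          rw [Finset.sum_const, nsmul_eq_mul, mul_one, Set.ncard_eq_toFinset_card E hEf]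

end Pool.Agent.R314.SX
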