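import Pool.Agent.R314.SX.BalR
import Pool.Agent.R314.SX.Gen

/-! Negative coefficients at every scale, and balance: coefficients indexed by the powers of the elements of a set `P`
with a norm. -/

set_option autoImplicit false

open Complex MeasureTheory Set Filter Topology
open Pool.Agent.W189.TP (DS)
open Pool.Agent.TH949.TX
open Pool.Agent.Y816.GL3T

namespace Pool.Agent.R314.SX

variable {P : Type*} {ℓ : P → ℝ}

/-- `log (N p ^ (k + 1))` -/
noncomputable def LG (ℓ : P → ℝ) (x : P × ℕ) : ℝ := ((x.2 : ℝ) + 1) * ℓ x.1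

/-- the coefficients `t(p^k) / k` -/
noncomputable def DG (t : P × ℕ → ℝ) (x : P × ℕ) : ℝ := t x / ((x.2 : ℝ) + 1)

theorem LG_zero (p : P) : LG ℓ (p, 0) = ℓ p := by
  show ((0 : ℕ) + 1 : ℝ) * ℓ p = _
  norm_num

theorem LG_two (hℓ : ∀ p, Real.log 2 ≤ ℓ p) (x : P × ℕ) : Real.log 2 ≤ LG ℓ x := by
  have h2 : 0 < Real.log 2 := Real.log_pos (by norm_num)
  have h3 : (0 : ℝ) ≤ x.2 := Nat.cast_nonneg _
  have h1 := hℓ x.1
  unfold LG
  nlinarith

theorem LG_nonneg (hℓ : ∀ p, Real.log 2 ≤ ℓ p) (x : P × ℕ) : 0 ≤ LG ℓ x :=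
  (Real.log_pos (by norm_num)).le.trans (LG_two hℓ x)

theorem LG_bound (hℓ : ∀ p, Real.log 2 ≤ ℓ p) {x : P × ℕ} {Z : ℝ} (h : LG ℓ x ≤ Z) : (x.2 : ℝ) + 1 ≤ Z / Real.log 2 := by
  have h1 := hℓ x.1
  have h2 : 0 < Real.log 2 := Real.log_pos (by norm_num)
  have h3 : (0 : ℝ) ≤ x.2 := Nat.cast_nonneg _
  have h4 : ((x.2 : ℝ) + 1) * ℓ x.1 ≤ Z := h
  rw [le_div_iff₀ h2]
  nlinarith

theorem LG_fin (hℓ : ∀ p, Real.log 2 ≤ ℓ p) (hfin : ∀ b : ℝ, {p | ℓ p ≤ b}.Finite) (b : ℝ) :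
    {x : P × ℕ | LG ℓ x ≤ b}.Finite := by
  have hlog2 : 0 < Real.log 2 := Real.log_pos (by norm_num)
  refine ((hfin b).prod (Finset.finite_toSet (Finset.range (⌊b / Real.log 2⌋₊ + 1)))).subset ?_
  rintro ⟨p, k⟩ hx
  have hl := hℓ p
  have hk : (0 : ℝ) ≤ k := Nat.cast_nonneg _
  have hx' : ((k : ℝ) + 1) * ℓ p ≤ b := hx
  refine mem_prod.2 ⟨?_, ?_⟩
  · show ℓ p ≤ b
    nlinarith
  · show k ∈ (Finset.range (⌊b / Real.log 2⌋₊ + 1) : Set ℕ)
    rw [Finset.coe_range, mem_Iio, Nat.lt_succ_iff]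
    refine Nat.le_floor ?_
    rw [le_div_iff₀ hlog2]
    nlinarith

/-- the higher powers are negligible -/
theorem first_le (hℓ : ∀ p, Real.log 2 ≤ ℓ p) (hfin : ∀ b : ℝ, {p | ℓ p ≤ b}.Finite) {σ M : ℝ}
    (hcnt : ∀ b : ℝ, (({p | ℓ p ≤ b}.ncard : ℕ) : ℝ) ≤ M * Real.exp (σ * b)) (A : ℝ → Prop)
    {w : P × ℕ → ℝ} {C : ℝ} (hC : 0 ≤ C) (hw : ∀ x, w x ≤ C) (hw0 : ∀ x, 0 ≤ w x) {Z : ℝ}
    (hZ : 0 ≤ Z) : (∑' x : P × ℕ, (open Classical in if A (LG ℓ x) ∧ LG ℓ x ≤ Z then w x else 0)) ≤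
      (∑' p : P, (open Classical in if A (ℓ p) ∧ ℓ p ≤ Z then w (p, 0) else 0)) +
      C * (Z / Real.log 2) * (M * Real.exp (σ * (Z / 2))) := by
  classical
  have hlog2 : 0 < Real.log 2 := Real.log_pos (by norm_num)
  set B : Finset P := (hfin (Z / 2)).toFinset with hB
  set K : Finset ℕ := Finset.Icc 1 ⌊Z / Real.log 2⌋₊ with hK
  set f1 : P × ℕ → ℝ := fun x => if x.2 = 0 ∧ A (ℓ x.1) ∧ ℓ x.1 ≤ Z then w (x.1, 0) else 0 with hf1
  set f2 : P × ℕ → ℝ := fun x => if x ∈ B ×ˢ K then C else 0 with hf2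
  have hle : ∀ x : P × ℕ, (if A (LG ℓ x) ∧ LG ℓ x ≤ Z then w x else 0) ≤ f1 x + f2 x := by
    rintro ⟨p, k⟩
    have h01 : 0 ≤ f1 (p, k) := by
      rw [hf1]
      simp only
      split_ifs
      · exact hw0 _
      · exact le_rfl
    have h02 : 0 ≤ f2 (p, k) := by
      rw [hf2]
      simp only
      split_ifs
      · exact hC
      · exact le_rfl
    by_cases hx : A (LG ℓ (p, k)) ∧ LG ℓ (p, k) ≤ Z
    · rw [if_pos hx]
      rcases Nat.eq_zero_or_pos k with rfl | hk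
      · have e1 : f1 (p, 0) = w (p, 0) := if_pos ⟨rfl, by rwa [LG_zero] at hx⟩
        linarith
      · have hb := LG_bound hℓ hx.2
        have e2 : f2 (p, k) = C := by
          refine if_pos (Finset.mem_product.2 ⟨?_, ?_⟩)
          · rw [hB, Set.Finite.mem_toFinset]
            show ℓ p ≤ Z / 2
            have h3 : ((k : ℝ) + 1) * ℓ p ≤ Z := hx.2
            have h4 : (1 : ℝ) ≤ k := by exact_mod_cast hk
            have h5 := hℓ p
            nlinarith
          · rw [hK, Finset.mem_Icc]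
            refine ⟨hk, Nat.le_floor ?_⟩
            have h6 : ((p, k).2 : ℝ) + 1 ≤ Z / Real.log 2 := hb
            have h7 : ((p, k) : P × ℕ).2 = k := rfl
            rw [h7] at h6
            linarith
        have := hw (p, k)
        linarith
    · rw [if_neg hx]
      exact add_nonneg h01 h02
  have hs1 : Summable f1 := by
    refine summable_of_hasFiniteSupport ((LG_fin hℓ hfin Z).subset fun x hx => ?_)
    by_contra h
    refine hx (if_neg fun h1 => h ?_)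
    obtain ⟨p, k⟩ := x
    obtain ⟨h2, -, h3⟩ := h1
    have h4 : k = 0 := h2
    subst h4
    show LG ℓ (p, 0) ≤ Z
    rw [LG_zero]
    exact h3
  have hs2 : Summable f2 := by
    refine summable_of_hasFiniteSupport ((Finset.finite_toSet (B ×ˢ K)).subset fun x hx => ?_)
    by_contra h
    exact hx (if_neg fun h1 => h (Finset.mem_coe.2 h1))
  have hs0 : Summable fun x : P × ℕ => (if A (LG ℓ x) ∧ LG ℓ x ≤ Z then w x else 0) := by
    refine summable_of_hasFiniteSupport ((LG_fin hℓ hfin Z).subset fun x hx => ?_)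
    by_contra h
    exact hx (if_neg fun h1 => h h1.2)
  have hinj : Function.Injective (fun p : P => ((p, 0) : P × ℕ)) := fun a b hab => (Prod.mk.inj hab).1
  have e1 : ∑' x, f1 x = ∑' p : P, (if A (ℓ p) ∧ ℓ p ≤ Z then w (p, 0) else 0) := by
    rw [← hinj.tsum_eq (f := f1)]
    · refine tsum_congr fun p => ?_
      rw [hf1]
      simp only [true_and]
    · intro x hx
      obtain ⟨p, k⟩ := x
      by_cases hk : k = 0
      · subst hk
        exact ⟨p, rfl⟩
      · exact absurd (if_neg fun h1 => hk h1.1) hx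
  have e2 : ∑' x, f2 x ≤ C * (Z / Real.log 2) * (M * Real.exp (σ * (Z / 2))) := by
    rw [tsum_eq_sum (s := B ×ˢ K) (fun x hx => if_neg hx)]
    have h3 : ∑ x ∈ B ×ˢ K, f2 x = C * (B.card : ℝ) * ((⌊Z / Real.log 2⌋₊ : ℕ) : ℝ) := by
      rw [Finset.sum_congr rfl (fun x hx => if_pos hx), Finset.sum_const, Finset.card_product, hK, Nat.card_Icc]
      simp
      ring
    rw [h3]
    have h4 : (B.card : ℝ) ≤ M * Real.exp (σ * (Z / 2)) := by
      have h5 := hcnt (Z / 2)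
      rw [ncard_eq_toFinset_card _ (hfin (Z / 2))] at h5
      exact h5
    have h6 : ((⌊Z / Real.log 2⌋₊ : ℕ) : ℝ) ≤ Z / Real.log 2 := Nat.floor_le (by positivity)
    have h7 : (0 : ℝ) ≤ B.card := Nat.cast_nonneg _
    calc C * (B.card : ℝ) * ((⌊Z / Real.log 2⌋₊ : ℕ) : ℝ) ≤ C * (M * Real.exp (σ * (Z / 2))) * (Z / Real.log 2) := by
          refine mul_le_mul (mul_le_mul_of_nonneg_left h4 hC) h6 (Nat.cast_nonneg _) (mul_nonneg hC (h7.trans h4))
      _ = _ := by ring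
  have h7 : (∑' x : P × ℕ, (if A (LG ℓ x) ∧ LG ℓ x ≤ Z then w x else 0)) ≤ ∑' x, (f1 x + f2 x) :=
    Summable.tsum_le_tsum hle hs0 (hs1.add hs2)
  rw [hs1.tsum_add hs2, e1] at h7
  linarith

/-- the quotient -/
theorem nf_quot {t : P × ℕ → ℝ} {U V : ℂ → ℂ} (hU : Differentiable ℂ U) (hV : Differentiable ℂ V)
    (hV1 : ∀ s : ℂ, 1 < s.re → V s ≠ 0) (hE : ∀ s : ℂ, 1 < s.re → U s = V s * cexp (DS (DG t) (LG ℓ) s)) {c : ℝ}
    (hreal : ∀ x : ℝ, c < x → V (x : ℂ) ≠ 0) :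
    ∃ F : ℂ → ℂ, MeromorphicOn F univ ∧ (∀ s : ℂ, 1 < s.re → F s = cexp (DS (DG t) (LG ℓ) s)) ∧
      (∀ x : ℝ, c < x → AnalyticAt ℂ F (x : ℂ)) ∧ ∀ s : ℂ, V s ≠ 0 → F s = U s / V s := by
  obtain ⟨F, hF, hF1, -, -⟩ := t_quot hU hV ⟨2, hV1 2 (by norm_num)⟩
    ⟨2, by rw [hE 2 (by norm_num)]; exact mul_ne_zero (hV1 2 (by norm_num)) (Complex.exp_ne_zero _)⟩
  refine ⟨F, hF, fun s hs => ?_, fun x hx => ?_, fun s hs => (hF1 s hs).1⟩
  · rw [(hF1 s (hV1 s hs)).1, hE s hs, mul_div_cancel_left₀ _ (hV1 s hs)]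
  · have hev : ∀ᶠ z in 𝓝 (x : ℂ), V z ≠ 0 := (hV.continuous.continuousAt).eventually_ne (hreal x hx)
    exact analyticAt_iff_eventually_differentiableAt.2 (hev.mono fun z hz => (hF1 z hz).2)

/-- **Every scale.** -/
theorem nf_key [Countable P] (hℓ : ∀ p, Real.log 2 ≤ ℓ p) (hfin : ∀ b : ℝ, {p | ℓ p ≤ b}.Finite) {t : P × ℕ → ℝ}
    (hsum : ∀ τ : ℝ, 1 < τ → Summable fun x : P × ℕ => |DG t x| * Real.exp (-(τ * LG ℓ x)))
    {F : ℂ → ℂ} (hF : MeromorphicOn F univ) (hFE : ∀ s : ℂ, 1 < s.re → F s = cexp (DS (DG t) (LG ℓ) s))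
    {c : ℝ} (hc0 : 0 ≤ c) (hreal : ∀ x : ℝ, c < x → 0 ≤ meromorphicOrderAt F (x : ℂ))
    {ρ : ℂ} (hρ : c < ρ.re) (ho : meromorphicOrderAt F ρ ≠ 0) {lam : ℝ} (hlam : 0 < lam) :
    ∃ a : ℝ, c < a ∧ ∀ᶠ X : ℝ in atTop, X ^ a ≤ ∑' x : P × ℕ, (open Classical in
      if (1 - lam) * Real.log X ≤ LG ℓ x ∧ LG ℓ x ≤ Real.log X then max 0 (-(t x)) else 0) := by
  classical
  refine ⟨(2 * c + ρ.re) / 3, by linarith, ?_⟩
  refine sum_abs (d := DG t) (c' := (c + ρ.re) / 2) (LG_nonneg hℓ) (fun x => le_max_left _ _) (fun x => ?_)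
    (LG_fin hℓ hfin) (by linarith) (by linarith)
    (fun l hl hl1 => main_right (LG_nonneg hℓ) hsum hF hFE (by linarith)
      (fun x hx => hreal x (by linarith)) ⟨ρ, by linarith, ho⟩ hl hl1) hlam
  unfold DG
  have hk : (0 : ℝ) ≤ x.2 := Nat.cast_nonneg _
  rw [← neg_div, div_le_iff₀ (by linarith)]
  have h4 : -(t x) ≤ max 0 (-(t x)) := le_max_right _ _
  have h5 : 0 ≤ max 0 (-(t x)) := le_max_left _ _
  nlinarith

/-- the first powers -/
theorem nf_win (hℓ : ∀ p, Real.log 2 ≤ ℓ p) (hfin : ∀ b : ℝ, {p | ℓ p ≤ b}.Finite)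
    (hcnt : ∀ σ : ℝ, 1 < σ → ∃ M : ℝ, 0 ≤ M ∧ ∀ b : ℝ, (({p | ℓ p ≤ b}.ncard : ℕ) : ℝ) ≤ M * Real.exp (σ * b))
    {t : P × ℕ → ℝ} {C : ℝ} (hC : 0 ≤ C) (hb : ∀ x, -(t x) ≤ C) {c lam : ℝ} (hc2 : 1 / 2 ≤ c)
    (hk : ∃ a : ℝ, c < a ∧ ∀ᶠ X : ℝ in atTop, X ^ a ≤ ∑' x : P × ℕ, (open Classical in
      if (1 - lam) * Real.log X ≤ LG ℓ x ∧ LG ℓ x ≤ Real.log X then max 0 (-(t x)) else 0)) :
    ∀ᶠ X : ℝ in atTop, X ^ c ≤ ∑' p : P, (open Classical in
      if (1 - lam) * Real.log X ≤ ℓ p ∧ ℓ p ≤ Real.log X then max 0 (-(t (p, 0))) else 0) := by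
  classical
  have hlog2 : 0 < Real.log 2 := Real.log_pos (by norm_num)
  obtain ⟨a, hca, hkey⟩ := hk
  have hca' : 0 < a - c := by linarith
  obtain ⟨M, hM0, hM⟩ := hcnt (1 + (a - c) / 2) (by linarith)
  have hp1 := poly_exp (C * (1 / Real.log 2) * M) 1 (c := (a - c) / 4) (by positivity)
  have hp2 := poly_exp 2 0 (c := (a - c) / 2) (by positivity)
  filter_upwards [hkey, Real.tendsto_log_atTop.eventually hp1, Real.tendsto_log_atTop.eventually hp2,
    eventually_ge_atTop 1] with X h1 h2 h3 h4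
  have hX0 : 0 < X := by linarith
  set y := Real.log X with hy
  have hy0 : 0 ≤ y := Real.log_nonneg h4
  rw [pow_one] at h2
  rw [pow_zero, mul_one] at h3
  have h5 := first_le hℓ hfin hM (fun z => (1 - lam) * y ≤ z) (w := fun x => max 0 (-(t x))) hC
    (fun x => max_le hC (hb x)) (fun x => le_max_left _ _) hy0
  have e1 : ∀ b : ℝ, X ^ b = Real.exp (b * y) := fun b => by rw [Real.rpow_def_of_pos hX0, mul_comm]
  rw [e1] at h1 ⊢
  have h6 : C * (y / Real.log 2) * (M * Real.exp ((1 + (a - c) / 2) * (y / 2))) ≤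
      Real.exp ((c + (a - c) / 2) * y) := by
    calc C * (y / Real.log 2) * (M * Real.exp ((1 + (a - c) / 2) * (y / 2))) =
        (C * (1 / Real.log 2) * M * y) * Real.exp ((1 + (a - c) / 2) * (y / 2)) := by ring
      _ ≤ Real.exp ((a - c) / 4 * y) * Real.exp ((1 + (a - c) / 2) * (y / 2)) :=
          mul_le_mul_of_nonneg_right h2 (Real.exp_pos _).le
      _ = Real.exp ((a - c) / 4 * y + (1 + (a - c) / 2) * (y / 2)) := by rw [Real.exp_add]
      _ ≤ _ := Real.exp_le_exp.2 (by nlinarith)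
  have h7 : Real.exp (a * y) = Real.exp ((a - c) / 2 * y) * Real.exp ((c + (a - c) / 2) * y) := by
    rw [← Real.exp_add]
    congr 1
    ring
  have h8 : Real.exp (c * y) ≤ Real.exp ((c + (a - c) / 2) * y) := Real.exp_le_exp.2 (by nlinarith)
  have h9 : 2 * Real.exp ((c + (a - c) / 2) * y) ≤ Real.exp (a * y) := by
    rw [h7]
    exact mul_le_mul_of_nonneg_right h3 (Real.exp_pos _).le
  linarith

/-- **Balance at the first powers, at every scale.** -/
theorem nf_bal [Countable P] (hℓ : ∀ p, Real.log 2 ≤ ℓ p) (hfin : ∀ b : ℝ, {p | ℓ p ≤ b}.Finite)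
    (hcnt : ∀ σ : ℝ, 1 < σ → ∃ M : ℝ, 0 ≤ M ∧ ∀ b : ℝ, (({p | ℓ p ≤ b}.ncard : ℕ) : ℝ) ≤ M * Real.exp (σ * b))
    {t : P × ℕ → ℝ} (hsum : ∀ τ : ℝ, 1 < τ → Summable fun x : P × ℕ => |DG t x| * Real.exp (-(τ * LG ℓ x)))
    {F : ℂ → ℂ} (hF : MeromorphicOn F univ) (hFE : ∀ s : ℂ, 1 < s.re → F s = cexp (DS (DG t) (LG ℓ) s)) {c : ℝ}
    (hc2 : 1 / 2 ≤ c) (hreal : ∀ x : ℝ, c < x → 0 ≤ meromorphicOrderAt F (x : ℂ)) {C : ℝ} (hC : 0 ≤ C)
    (hb : ∀ x, -(t x) ≤ C) {ε : ℝ} (hε : 0 < ε) :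
    ∀ᶠ X : ℝ in atTop, (∑' p : P, (open Classical in if ℓ p ≤ Real.log X then max 0 (t (p, 0)) else 0)) ≤
      X ^ ε * ((∑' p : P, (open Classical in if ℓ p ≤ (1 + ε) * Real.log X then max 0 (-(t (p, 0))) else 0)) +
        X ^ c) := by
  classical
  have hlog2 : 0 < Real.log 2 := Real.log_pos (by norm_num)
  obtain ⟨M, hM0, hM⟩ := hcnt (1 + ε / 8) (by linarith)
  have hbal := balanceR hlog2 (LG_two hℓ) hsum hF hFE hc2 hreal (ε := min (ε / 4) 1) (by positivity)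
  set e4 : ℝ := min (ε / 4) 1 with he4
  have he40 : 0 < e4 := by positivity
  have he41 : e4 ≤ ε / 4 := min_le_left _ _
  have he42 : e4 ≤ 1 := min_le_right _ _
  have hp1 := poly_exp (C * ((1 + e4) / Real.log 2) * M) 1 (c := ε / 8) (by positivity)
  have hp2 := poly_exp 2 0 (c := 3 * ε / 8) (by positivity)
  filter_upwards [Real.tendsto_log_atTop.eventually hbal, Real.tendsto_log_atTop.eventually hp1,
    Real.tendsto_log_atTop.eventually hp2, eventually_ge_atTop 1] with X a1 a2 a3 a4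
  have hX0 : 0 < X := by linarith
  set y : ℝ := Real.log X with hy
  have hy0 : 0 ≤ y := Real.log_nonneg a4
  rw [pow_one] at a2
  rw [pow_zero, mul_one] at a3
  have hwC : ∀ x : P × ℕ, max 0 (-(DG t x)) ≤ C := fun x => by
    refine max_le hC ?_
    unfold DG
    have hk : (0 : ℝ) ≤ x.2 := Nat.cast_nonneg _
    rw [← neg_div, div_le_iff₀ (by linarith)]
    have := hb x
    nlinarith
  have hdt0 : ∀ p : P, DG t (p, 0) = t (p, 0) := fun p => by
    unfold DG
    simp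
  -- the left hand side
  have hleft : (∑' p : P, (if ℓ p ≤ y then max 0 (t (p, 0)) else 0)) ≤ SS (fun x => max 0 (DG t x)) (LG ℓ) y := by
    unfold SS
    have hs0 : Summable fun x : P × ℕ => (if LG ℓ x ≤ y then max 0 (DG t x) else 0) := by
      refine summable_of_hasFiniteSupport ((LG_fin hℓ hfin y).subset fun x hx => ?_)
      by_contra h
      exact hx (if_neg h)
    have hinj : Function.Injective (fun p : P => ((p, 0) : P × ℕ)) := fun a b hab => (Prod.mk.inj hab).1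
    have hs1 := hs0.comp_injective hinj
    have h3 := hs1.tsum_le_tsum_of_inj _ hinj (fun x _ => by
      split_ifs
      · exact le_max_left _ _
      · exact le_rfl) (fun p => le_rfl) hs0
    refine le_trans (le_of_eq (tsum_congr fun p => ?_)) h3
    show _ = (if LG ℓ (p, 0) ≤ y then max 0 (DG t (p, 0)) else 0)
    rw [hdt0, LG_zero]
  -- the right hand side
  have hZ0 : 0 ≤ (1 + e4) * y := by positivity
  have hright := first_le hℓ hfin hM (fun _ => True) (w := fun x => max 0 (-(DG t x))) hC hwC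
    (fun x => le_max_left _ _) hZ0
  simp only [true_and] at hright
  have hr2 : (∑' p : P, (if ℓ p ≤ (1 + e4) * y then max 0 (-(DG t (p, 0))) else 0)) ≤
      ∑' p : P, (if ℓ p ≤ (1 + ε) * y then max 0 (-(t (p, 0))) else 0) := by
    refine Summable.tsum_le_tsum (fun p => ?_) ?_ ?_
    · rw [hdt0]
      split_ifs with h1 h2
      · exact le_rfl
      · exfalso
        apply h2
        refine h1.trans ?_
        nlinarith
      · exact le_max_left _ _
      · exact le_rfl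
    · refine summable_of_hasFiniteSupport ((hfin ((1 + e4) * y)).subset fun x hx => ?_)
      by_contra h
      exact hx (if_neg h)
    · refine summable_of_hasFiniteSupport ((hfin ((1 + ε) * y)).subset fun x hx => ?_)
      by_contra h
      exact hx (if_neg h)
  set R : ℝ := ∑' p : P, (if ℓ p ≤ (1 + ε) * y then max 0 (-(t (p, 0))) else 0) with hR
  have hR0 : 0 ≤ R := tsum_nonneg fun p => by
    split_ifs
    · exact le_max_left _ _
    · exact le_rfl
  have hXc : X ^ c = Real.exp (c * y) := by rw [Real.rpow_def_of_pos hX0, mul_comm]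
  have hXe : X ^ ε = Real.exp (ε * y) := by rw [Real.rpow_def_of_pos hX0, mul_comm]
  have b1 : C * ((1 + e4) * y / Real.log 2) * (M * Real.exp ((1 + ε / 8) * ((1 + e4) * y / 2))) +
      Real.exp (c * y) ≤ Real.exp (3 * ε / 4 * y) * Real.exp (c * y) := by
    have c1 : C * ((1 + e4) * y / Real.log 2) * M ≤ Real.exp (ε / 8 * y) := by
      calc C * ((1 + e4) * y / Real.log 2) * M = C * ((1 + e4) / Real.log 2) * M * y := by ring
        _ ≤ _ := a2
    have c2 : Real.exp ((1 + ε / 8) * ((1 + e4) * y / 2)) ≤ Real.exp (ε / 4 * y) * Real.exp (c * y) := by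
      rw [← Real.exp_add]
      refine Real.exp_le_exp.2 ?_
      have d1 : (1 + ε / 8) * ((1 + e4) * y / 2) = (1 / 2 + e4 / 2 + ε / 16 + ε * e4 / 16) * y := by ring
      rw [d1, ← add_mul]
      refine mul_le_mul_of_nonneg_right ?_ hy0
      have d2 : ε * e4 ≤ ε * 1 := mul_le_mul_of_nonneg_left he42 hε.le
      linarith
    have c3 : 1 ≤ Real.exp (3 * ε / 8 * y) := Real.one_le_exp (by positivity)
    have c4 : 0 < Real.exp (c * y) := Real.exp_pos _
    have c5 : Real.exp (3 * ε / 4 * y) = Real.exp (3 * ε / 8 * y) * Real.exp (3 * ε / 8 * y) := by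
      rw [← Real.exp_add]
      congr 1
      ring
    calc C * ((1 + e4) * y / Real.log 2) * (M * Real.exp ((1 + ε / 8) * ((1 + e4) * y / 2))) + Real.exp (c * y) =
        C * ((1 + e4) * y / Real.log 2) * M * Real.exp ((1 + ε / 8) * ((1 + e4) * y / 2)) + 1 * Real.exp (c * y) := by
          ring
      _ ≤ Real.exp (ε / 8 * y) * (Real.exp (ε / 4 * y) * Real.exp (c * y)) + 1 * Real.exp (c * y) := by
          refine add_le_add (mul_le_mul c1 c2 (Real.exp_pos _).le (Real.exp_pos _).le) le_rfl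
      _ ≤ Real.exp (3 * ε / 8 * y) * Real.exp (c * y) + Real.exp (3 * ε / 8 * y) * Real.exp (c * y) := by
          refine add_le_add (le_of_eq ?_) (mul_le_mul_of_nonneg_right c3 c4.le)
          rw [← mul_assoc, ← Real.exp_add]
          congr 2
          ring
      _ = 2 * (Real.exp (3 * ε / 8 * y) * Real.exp (c * y)) := by ring
      _ ≤ Real.exp (3 * ε / 8 * y) * (Real.exp (3 * ε / 8 * y) * Real.exp (c * y)) :=
          mul_le_mul_of_nonneg_right a3 (by positivity)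
      _ = _ := by rw [c5]; ring
  calc _ ≤ SS (fun x => max 0 (DG t x)) (LG ℓ) y := hleft
    _ ≤ Real.exp (e4 * y) * (SS (fun x => max 0 (-(DG t x))) (LG ℓ) ((1 + e4) * y) + Real.exp (c * y)) := a1
    _ ≤ Real.exp (ε / 4 * y) * (R + Real.exp (3 * ε / 4 * y) * Real.exp (c * y)) := by
        refine mul_le_mul (Real.exp_le_exp.2 (mul_le_mul_of_nonneg_right he41 hy0)) ?_ ?_ (Real.exp_pos _).le
        · have : SS (fun x => max 0 (-(DG t x))) (LG ℓ) ((1 + e4) * y) ≤ R +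
              C * ((1 + e4) * y / Real.log 2) * (M * Real.exp ((1 + ε / 8) * ((1 + e4) * y / 2))) := by
            unfold SS
            linarith
          linarith
        · exact add_nonneg (SS_nonneg (fun x => le_max_left _ _) _) (Real.exp_pos _).le
    _ ≤ Real.exp (ε / 4 * y) * (Real.exp (3 * ε / 4 * y) * R + Real.exp (3 * ε / 4 * y) * Real.exp (c * y)) := by
        refine mul_le_mul_of_nonneg_left (add_le_add ?_ le_rfl) (Real.exp_pos _).le
        have : 1 ≤ Real.exp (3 * ε / 4 * y) := Real.one_le_exp (by positivity)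
        nlinarith
    _ = Real.exp (ε * y) * (R + Real.exp (c * y)) := by
        have e1 : Real.exp (ε * y) = Real.exp (ε / 4 * y) * Real.exp (3 * ε / 4 * y) := by
          rw [← Real.exp_add]
          congr 1
          ring
        rw [e1]
        ring
    _ = X ^ ε * (R + X ^ c) := by rw [hXc, hXe]

end Pool.Agent.R314.SX
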