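import Pool.Agent.R314.SX.NF
import Pool.Agent.R314.SX.Gam
import Pool.Agent.TH949.TX.GL3b
import Pool.Agent.TH949.TX.Enl

/-! Isobaric sums over number fields: the coefficients. -/

set_option autoImplicit false

open Complex MeasureTheory Set Filter Topology NumberField IsDedekindDomain
open Pool.Agent.W189.TP (DS summ_cplx)
open Pool.Agent.TH949.TX (euler_exp)
open Pool.Agent.TH861.GL3 (PL qq two_le_qq qq_pos one_lt_qq summable_qq)

namespace Pool.Agent.R314.SX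

variable {K : Type*} [Field K] [NumberField K] {S : Finset (HeightOneSpectrum (𝓞 K))} {n d N : ℕ}

/-- `log q_v` -/
noncomputable def lv (v : PL S) : ℝ := Real.log (qq v.1 : ℝ)

theorem lv_two (v : PL S) : Real.log 2 ≤ lv v :=
  Real.log_le_log (by norm_num) (by exact_mod_cast two_le_qq v.1)

theorem lv_fin (b : ℝ) : {v : PL S | lv v ≤ b}.Finite := Pool.Agent.TH949.TX.qq_fin b

theorem exp_lv (v : PL S) (σ : ℝ) : Real.exp (-(σ * lv v)) = (qq v.1 : ℝ) ^ (-σ) := by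
  rw [Real.rpow_def_of_pos (qq_pos v.1)]
  congr 1
  unfold lv
  ring

theorem lv_cnt (σ : ℝ) (hσ : 1 < σ) :
    ∃ M : ℝ, 0 ≤ M ∧ ∀ b : ℝ, (({v : PL S | lv v ≤ b}.ncard : ℕ) : ℝ) ≤ M * Real.exp (σ * b) := by
  refine ⟨∑' v : PL S, (qq v.1 : ℝ) ^ (-σ), tsum_nonneg fun v => by positivity, fun b => ?_⟩
  have h1 : ∑ v ∈ (lv_fin (S := S) b).toFinset, Real.exp (-(σ * b)) ≤ ∑' v : PL S, (qq v.1 : ℝ) ^ (-σ) := by
    refine le_trans (Finset.sum_le_sum fun v hv => ?_)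
      ((summable_qq (S := S) hσ).sum_le_tsum (lv_fin (S := S) b).toFinset fun v _ => by positivity)
    rw [← exp_lv]
    have h2 : lv v ≤ b := (lv_fin (S := S) b).mem_toFinset.1 hv
    refine Real.exp_le_exp.2 ?_
    nlinarith
  rw [Finset.sum_const, nsmul_eq_mul, ← ncard_eq_toFinset_card _ (lv_fin (S := S) b)] at h1
  have h3 : Real.exp (-(σ * b)) * Real.exp (σ * b) = 1 := by
    rw [← Real.exp_add, neg_add_cancel, Real.exp_zero]
  calc (({v : PL S | lv v ≤ b}.ncard : ℕ) : ℝ) =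
      (({v : PL S | lv v ≤ b}.ncard : ℕ) : ℝ) * Real.exp (-(σ * b)) * Real.exp (σ * b) := by
        rw [mul_assoc, h3, mul_one]
    _ ≤ _ := mul_le_mul_of_nonneg_right h1 (Real.exp_pos _).le

theorem exp_LG (x : PL S × ℕ) (s : ℂ) :
    Complex.exp (-(s * LG (lv (S := S)) x)) = (((qq x.1.1 : ℕ) : ℂ) ^ (-s)) ^ (x.2 + 1) :=
  Pool.Agent.TH861.GL3.exp_LL x s

theorem rexp_LG (x : PL S × ℕ) (σ : ℝ) :
    Real.exp (-(σ * LG (lv (S := S)) x)) = ((qq x.1.1 : ℝ) ^ (-σ)) ^ (x.2 + 1) :=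
  Pool.Agent.TH861.GL3.rexp_LL x σ

/-- `|∑_i α_{i,v}^k|² - d` -/
noncomputable def tk (d : ℕ) (α : PL S → Fin n → ℂ) (x : PL S × ℕ) : ℝ := ‖∑ i, α x.1 i ^ (x.2 + 1)‖ ^ 2 - d

/-- `log L^S(s, Π × Π~)` -/
noncomputable def logRK (α : PL S → Fin n → ℂ) (s : ℂ) : ℂ :=
  ∑' x : PL S × ℕ, ((‖∑ i, α x.1 i ^ (x.2 + 1)‖ ^ 2 / ((x.2 : ℝ) + 1) : ℝ) : ℂ) *
    (((qq x.1.1 : ℕ) : ℂ) ^ (-s)) ^ (x.2 + 1)

/-- `log ζ_K^S(s)` -/
noncomputable def logZK (S : Finset (HeightOneSpectrum (𝓞 K))) (s : ℂ) : ℂ :=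
  ∑' x : PL S × ℕ, ((1 / ((x.2 : ℝ) + 1) : ℝ) : ℂ) * (((qq x.1.1 : ℕ) : ℂ) ^ (-s)) ^ (x.2 + 1)

/-- The isobaric sum `Π` of unitary cuspidal representations `π_i` of general linear groups over the number field `K`
with multiplicities `c_i`, no two of the `π_i` being twists of each other by a power of `|det|`, and `d = ∑ c_i²`, the
order of the pole of `L(s, Π × Π~)` at `s = 1`. `Π` is a representation of `GL_n`, unramified outside the finite set `S`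
of places, with Satake parameters `α_{i,v}`; the factor of `L(s, Π × Π~)` at `v ∈ S` is
`∏_i (1 - β_{v,i} q_v^{-s})⁻¹`, the product of the factors at the infinite places is `∏_j Γ_ℝ(s + κ_j)` (for a complex
place one uses `Γ_ℂ(s) = Γ_ℝ(s) Γ_ℝ(s + 1)`), and `Z(s) = (s - 1) ζ_K(s)`. -/
structure RepNF (S : Finset (HeightOneSpectrum (𝓞 K))) (d : ℕ) (α : PL S → Fin n → ℂ)
    (β : HeightOneSpectrum (𝓞 K) → Fin (n ^ 2) → ℂ) (κ : Fin N → ℂ) (Z : ℂ → ℂ) : Prop where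
  /-- the Satake parameters are nonzero -/
  ne_zero : ∀ v i, α v i ≠ 0
  /-- `Π_v` is unitary -/
  unitary : ∀ v, ∃ τ : Equiv.Perm (Fin n), ∀ i, α v (τ i) = ((starRingEnd ℂ) (α v i))⁻¹
  /-- absolute convergence of `log L(s, Π × Π~)` for `Re s > 1` -/
  summable : ∀ σ : ℝ, 1 < σ → Summable fun x : PL S × ℕ =>
    ‖∑ i, α x.1 i ^ (x.2 + 1)‖ ^ 2 / ((x.2 : ℝ) + 1) * ((qq x.1.1 : ℝ) ^ (-σ)) ^ (x.2 + 1)
  /-- `Z(s) = (s - 1) ζ_K(s)` is entire -/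
  zeta_entire : Differentiable ℂ Z
  /-- `ζ_K` has a pole at `s = 1` -/
  zeta_one : Z 1 ≠ 0
  /-- the Euler product of `ζ_K` -/
  zeta : ∀ s : ℂ, 1 < s.re → Z s * ∏ v ∈ S, (1 - ((qq v : ℕ) : ℂ) ^ (-s)) = (s - 1) * Complex.exp (logZK S s)
  /-- `L(s, Π × Π~) = G(s) / (s - 1)^d` with `G` entire; the completed function
  `Ξ(s) = (s (s - 1))^d Q^s ∏ Γ_ℝ(s + κ_j) L(s, Π × Π~)` is entire -/
  continuation : ∃ (G Ξ : ℂ → ℂ) (Q : ℝ), Differentiable ℂ G ∧ Differentiable ℂ Ξ ∧ 0 < Q ∧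
    (∀ s : ℂ, 1 < s.re → G s * ∏ v ∈ S, ∏ i, (1 - β v i * ((qq v : ℕ) : ℂ) ^ (-s)) =
      (s - 1) ^ d * Complex.exp (logRK α s)) ∧
    ∀ s : ℂ, 1 < s.re → Ξ s = s ^ d * G s * ((Q : ℂ) ^ s * ∏ j, Complex.Gammaℝ (s + κ j))

theorem D0K_summ {σ : ℝ} (hσ : 1 < σ) : Summable fun x : PL S × ℕ =>
    1 / ((x.2 : ℝ) + 1) * Real.exp (-(σ * LG (lv (S := S)) x)) := by
  have h := Pool.Agent.TH861.GL3.summable_pp (S := S) (fun _ => 1) (fun _ => zero_le_one) (σ := σ) (by linarith)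
    ((summable_qq (S := S) hσ).congr fun p => by rw [one_mul])
  refine Summable.of_nonneg_of_le (fun x => by positivity) (fun x => ?_) h
  refine mul_le_mul_of_nonneg_right ?_ (Real.exp_pos _).le
  have hk : (0 : ℝ) ≤ x.2 := Nat.cast_nonneg _
  rw [div_le_one (by linarith)]
  linarith

theorem tk_summ {α : PL S → Fin n → ℂ} (h : ∀ σ : ℝ, 1 < σ → Summable fun x : PL S × ℕ =>
    ‖∑ i, α x.1 i ^ (x.2 + 1)‖ ^ 2 / ((x.2 : ℝ) + 1) * ((qq x.1.1 : ℝ) ^ (-σ)) ^ (x.2 + 1)) {τ : ℝ} (hτ : 1 < τ) :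
    Summable fun x : PL S × ℕ => |DG (tk d α) x| * Real.exp (-(τ * LG (lv (S := S)) x)) := by
  refine Summable.of_nonneg_of_le (fun x => by positivity) (fun x => ?_) ((h τ hτ).add ((D0K_summ hτ).mul_left (d : ℝ)))
  rw [← rexp_LG, ← mul_assoc, ← add_mul]
  refine mul_le_mul_of_nonneg_right ?_ (Real.exp_pos _).le
  unfold DG tk
  rw [sub_div]
  refine (abs_sub _ _).trans (add_le_add (le_of_eq ?_) (le_of_eq ?_))
  · exact abs_of_nonneg (by positivity)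
  · rw [abs_of_nonneg (by positivity)]
    ring

theorem DS_tk {α : PL S → Fin n → ℂ} (h : ∀ σ : ℝ, 1 < σ → Summable fun x : PL S × ℕ =>
    ‖∑ i, α x.1 i ^ (x.2 + 1)‖ ^ 2 / ((x.2 : ℝ) + 1) * ((qq x.1.1 : ℝ) ^ (-σ)) ^ (x.2 + 1)) {s : ℂ} (hs : 1 < s.re) :
    logRK α s = d * logZK S s + DS (DG (tk d α)) (LG lv) s := by
  have hL := LG_nonneg (lv_two (S := S))
  have h1 : Summable fun x : PL S × ℕ => ((1 / ((x.2 : ℝ) + 1) : ℝ) : ℂ) * Complex.exp (-(s * LG (lv (S := S)) x)) := by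
    refine summ_cplx (L := LG (lv (S := S))) (d := fun x : PL S × ℕ => 1 / ((x.2 : ℝ) + 1)) hL le_rfl ?_
    refine (D0K_summ (S := S) hs).congr fun x => ?_
    rw [abs_of_nonneg (by positivity)]
  have h2 : Summable fun x : PL S × ℕ => ((DG (tk d α) x : ℝ) : ℂ) * Complex.exp (-(s * LG (lv (S := S)) x)) :=
    summ_cplx hL le_rfl (tk_summ h hs)
  unfold DS logRK logZK
  have e1 : ∑' x : PL S × ℕ, ((1 / ((x.2 : ℝ) + 1) : ℝ) : ℂ) * (((qq x.1.1 : ℕ) : ℂ) ^ (-s)) ^ (x.2 + 1) =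
      ∑' x : PL S × ℕ, ((1 / ((x.2 : ℝ) + 1) : ℝ) : ℂ) * Complex.exp (-(s * LG (lv (S := S)) x)) :=
    tsum_congr fun x => by rw [exp_LG]
  rw [e1, ← tsum_mul_left, ← (h1.mul_left (d : ℂ)).tsum_add h2]
  refine tsum_congr fun x => ?_
  rw [exp_LG, ← mul_assoc, ← add_mul]
  congr 1
  unfold DG tk
  push_cast
  ring

/-- the numerator -/
noncomputable def UK (S : Finset (HeightOneSpectrum (𝓞 K))) (β : HeightOneSpectrum (𝓞 K) → Fin (n ^ 2) → ℂ)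
    (G : ℂ → ℂ) (s : ℂ) : ℂ := G s * ∏ v ∈ S, ∏ i, (1 - β v i * ((qq v : ℕ) : ℂ) ^ (-s))

/-- the denominator -/
noncomputable def VK (S : Finset (HeightOneSpectrum (𝓞 K))) (d : ℕ) (Z : ℂ → ℂ) (s : ℂ) : ℂ :=
  (Z s * ∏ v ∈ S, (1 - ((qq v : ℕ) : ℂ) ^ (-s))) ^ d

theorem qc_ne (v : HeightOneSpectrum (𝓞 K)) : ((qq v : ℕ) : ℂ) ≠ 0 := by
  have := two_le_qq v
  exact_mod_cast (by omega : qq v ≠ 0)

theorem qc_diff (v : HeightOneSpectrum (𝓞 K)) : Differentiable ℂ fun s : ℂ => ((qq v : ℕ) : ℂ) ^ (-s) := by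
  intro s
  exact (differentiableAt_id.neg).const_cpow (Or.inl (qc_ne v))

theorem qc_norm (v : HeightOneSpectrum (𝓞 K)) (s : ℂ) : ‖((qq v : ℕ) : ℂ) ^ (-s)‖ = (qq v : ℝ) ^ (-s.re) := by
  rw [Complex.norm_natCast_cpow_of_pos (by have := two_le_qq v; omega), Complex.neg_re]

theorem one_sub_ne (v : HeightOneSpectrum (𝓞 K)) {s : ℂ} (hs : 0 < s.re) : 1 - ((qq v : ℕ) : ℂ) ^ (-s) ≠ 0 := by
  rw [sub_ne_zero]
  intro h
  have h1 := congrArg norm h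
  rw [norm_one, qc_norm] at h1
  have h2 : (qq v : ℝ) ^ (-s.re) < 1 := Real.rpow_lt_one_of_one_lt_of_neg (one_lt_qq v) (by linarith)
  linarith

theorem UK_diff {β : HeightOneSpectrum (𝓞 K) → Fin (n ^ 2) → ℂ} {G : ℂ → ℂ} (hG : Differentiable ℂ G) :
    Differentiable ℂ (UK S β G) := by
  refine hG.mul (Differentiable.fun_finsetProd fun v _ => Differentiable.fun_finsetProd fun i _ => ?_)
  exact (differentiable_const _).sub ((differentiable_const _).mul (qc_diff v))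

theorem VK_diff {Z : ℂ → ℂ} (hZ : Differentiable ℂ Z) : Differentiable ℂ (VK S d Z) := by
  refine (hZ.mul (Differentiable.fun_finsetProd fun v _ => ?_)).pow d
  exact (differentiable_const _).sub (qc_diff v)

variable {α : PL S → Fin n → ℂ} {β : HeightOneSpectrum (𝓞 K) → Fin (n ^ 2) → ℂ} {κ : Fin N → ℂ} {Z : ℂ → ℂ}

theorem VK_one (h : RepNF S d α β κ Z) {s : ℂ} (hs : 1 < s.re) : VK S d Z s ≠ 0 := by
  refine pow_ne_zero _ ?_
  rw [h.zeta s hs]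
  refine mul_ne_zero (sub_ne_zero.2 ?_) (Complex.exp_ne_zero _)
  rintro rfl
  simp at hs

theorem VK_real (h : RepNF S d α β κ Z) {c : ℝ} (hc : 0 ≤ c) (hz : ∀ x : ℝ, c < x → x < 1 → Z (x : ℂ) ≠ 0) {x : ℝ}
    (hx : c < x) : VK S d Z (x : ℂ) ≠ 0 := by
  rcases lt_trichotomy x 1 with h1 | h1 | h1
  · exact pow_ne_zero _ (mul_ne_zero (hz x hx h1) (Finset.prod_ne_zero_iff.2 fun v _ => one_sub_ne v (by
      rw [Complex.ofReal_re]
      linarith)))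
  · subst h1
    refine pow_ne_zero _ (mul_ne_zero ?_ (Finset.prod_ne_zero_iff.2 fun v _ => one_sub_ne v (by
      rw [Complex.ofReal_re]
      linarith)))
    rw [Complex.ofReal_one]
    exact h.zeta_one
  · exact VK_one h (by rwa [Complex.ofReal_re])

theorem UVK (h : RepNF S d α β κ Z) {G : ℂ → ℂ}
    (hE : ∀ s : ℂ, 1 < s.re → G s * ∏ v ∈ S, ∏ i, (1 - β v i * ((qq v : ℕ) : ℂ) ^ (-s)) =
      (s - 1) ^ d * Complex.exp (logRK α s)) {s : ℂ} (hs : 1 < s.re) :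
    UK S β G s = VK S d Z s * cexp (DS (DG (tk d α)) (LG lv) s) := by
  unfold UK VK
  rw [hE s hs, h.zeta s hs, DS_tk (d := d) h.summable hs, Complex.exp_add, mul_pow, ← Complex.exp_nat_mul]
  ring

/-- the coefficients without the place `v₀` -/
noncomputable def tr0 (v₀ : PL S) (t : PL S × ℕ → ℝ) (x : PL S × ℕ) : ℝ :=
  open scoped Classical in if x.1 = v₀ then 0 else t x

theorem tr0_DG (v₀ : PL S) (t : PL S × ℕ → ℝ) (x : PL S × ℕ) :
    DG (tr0 v₀ t) x = open scoped Classical in if x.1 = v₀ then 0 else DG t x := by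
  classical
  unfold DG tr0
  split_ifs
  · rw [zero_div]
  · rfl

theorem tr0_summ (v₀ : PL S) {t : PL S × ℕ → ℝ} {τ : ℝ}
    (h : Summable fun x : PL S × ℕ => |DG t x| * Real.exp (-(τ * LG (lv (S := S)) x))) :
    Summable fun x : PL S × ℕ => |DG (tr0 v₀ t) x| * Real.exp (-(τ * LG (lv (S := S)) x)) := by
  classical
  refine Summable.of_nonneg_of_le (fun x => by positivity) (fun x => ?_) h
  refine mul_le_mul_of_nonneg_right ?_ (Real.exp_pos _).le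
  rw [tr0_DG]
  split_ifs
  · rw [abs_zero]
    exact abs_nonneg _
  · exact le_rfl

theorem tr0_DS (v₀ : PL S) {t : PL S × ℕ → ℝ} {s : ℂ}
    (h : Summable fun x : PL S × ℕ => |DG t x| * Real.exp (-(s.re * LG (lv (S := S)) x))) :
    DS (DG t) (LG lv) s = DS (DG (tr0 v₀ t)) (LG lv) s +
      ∑' k : ℕ, ((t (v₀, k) / ((k : ℝ) + 1) : ℝ) : ℂ) * (((qq v₀.1 : ℕ) : ℂ) ^ (-s)) ^ (k + 1) := by
  classical
  have hL := LG_nonneg (lv_two (S := S))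
  have h1 : Summable fun x : PL S × ℕ => ((DG t x : ℝ) : ℂ) * Complex.exp (-(s * LG (lv (S := S)) x)) :=
    summ_cplx hL le_rfl h
  have h2 : Summable fun x : PL S × ℕ => ((DG (tr0 v₀ t) x : ℝ) : ℂ) * Complex.exp (-(s * LG (lv (S := S)) x)) :=
    summ_cplx hL le_rfl (tr0_summ v₀ h)
  have h3 := h1.tsum_sub h2
  have hinj : Function.Injective (fun k : ℕ => ((v₀, k) : PL S × ℕ)) := fun a b hab => (Prod.mk.inj hab).2
  have h4 : ∑' x : PL S × ℕ, (((DG t x : ℝ) : ℂ) * Complex.exp (-(s * LG (lv (S := S)) x)) -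
      ((DG (tr0 v₀ t) x : ℝ) : ℂ) * Complex.exp (-(s * LG (lv (S := S)) x))) =
      ∑' k : ℕ, ((t (v₀, k) / ((k : ℝ) + 1) : ℝ) : ℂ) * (((qq v₀.1 : ℕ) : ℂ) ^ (-s)) ^ (k + 1) := by
    rw [← hinj.tsum_eq]
    · refine tsum_congr fun k => ?_
      rw [exp_LG, tr0_DG, if_pos rfl, Complex.ofReal_zero, zero_mul, sub_zero]
      rfl
    · intro x hx
      obtain ⟨v, k⟩ := x
      by_cases hv : v = v₀
      · subst hv
        exact ⟨k, rfl⟩
      · exfalso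
        apply hx
        beta_reduce
        rw [tr0_DG, if_neg hv, sub_self]
  unfold DS
  rw [← h4, h3]
  ring

theorem nbd (h : RepNF S d α β κ Z) (v : PL S) (i : Fin n) {s : ℂ} (hs : 1 < s.re) :
    ‖α v i‖ ^ 2 * ‖((qq v.1 : ℕ) : ℂ) ^ (-s)‖ < 1 := by
  have hp1 : (1 : ℝ) < (qq v.1 : ℝ) := one_lt_qq v.1
  have hp : (0 : ℝ) < (qq v.1 : ℝ) := qq_pos v.1
  set t : ℝ := (1 + s.re) / 2 with ht
  have ht1 : 1 < t := by rw [ht]; linarith
  have hts : t < s.re := by rw [ht]; linarith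
  have hC0 : 0 < (qq v.1 : ℝ) ^ (-t) := by positivity
  have hC1 : (qq v.1 : ℝ) ^ (-t) < 1 := Real.rpow_lt_one_of_one_lt_of_neg hp1 (by linarith)
  have h1 : Summable fun k : ℕ => (‖∑ i, α v i ^ (k + 1)‖ ^ 2 - 1) / ((k : ℝ) + 1) *
      ((qq v.1 : ℝ) ^ (-t)) ^ (k + 1) := by
    have h2 := (h.summable t ht1).comp_injective (i := fun k : ℕ => ((v, k) : PL S × ℕ))
      (fun a b hab => (Prod.mk.inj hab).2)
    have hgeo : Summable fun k : ℕ => ((qq v.1 : ℝ) ^ (-t)) ^ (k + 1) := by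
      have := (summable_geometric_of_lt_one hC0.le hC1).mul_right ((qq v.1 : ℝ) ^ (-t))
      refine this.congr fun k => ?_
      rw [pow_succ]
    have h3 : Summable fun k : ℕ => 1 / ((k : ℝ) + 1) * ((qq v.1 : ℝ) ^ (-t)) ^ (k + 1) := by
      refine Summable.of_nonneg_of_le (fun k => by positivity) (fun k => ?_) hgeo
      refine mul_le_of_le_one_left (by positivity) ?_
      have hk : (0 : ℝ) ≤ k := Nat.cast_nonneg _
      rw [div_le_one (by linarith)]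
      linarith
    refine (h2.sub h3).congr fun k => ?_
    simp only [Function.comp]
    ring
  have h3 := Pool.Agent.TH949.RES.norm_le_one_of_summable h1 hC0 hC1 i
  have h4 : ‖((qq v.1 : ℕ) : ℂ) ^ (-s)‖ < (qq v.1 : ℝ) ^ (-t) := by
    rw [qc_norm]
    exact Real.rpow_lt_rpow_of_exponent_lt hp1 (by linarith)
  rcases (sq_nonneg ‖α v i‖).lt_or_eq with h5 | h5
  · calc ‖α v i‖ ^ 2 * ‖((qq v.1 : ℕ) : ℂ) ^ (-s)‖ < ‖α v i‖ ^ 2 * (qq v.1 : ℝ) ^ (-t) := by gcongr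
      _ ≤ 1 := h3
  · rw [← h5, zero_mul]
    exact one_pos

/-- the inverse of the Euler factor at `v₀` -/
noncomputable def EK (α : PL S → Fin n → ℂ) (v₀ : PL S) (s : ℂ) : ℂ :=
  ∏ x : Fin n × Fin n, (1 - α v₀ x.1 * (starRingEnd ℂ) (α v₀ x.2) * ((qq v₀.1 : ℕ) : ℂ) ^ (-s))

theorem EK_diff (v₀ : PL S) : Differentiable ℂ (EK α v₀) :=
  Differentiable.fun_finsetProd fun x _ => (differentiable_const _).sub ((differentiable_const _).mul (qc_diff v₀.1))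

theorem EK_zero {v₀ : PL S} {i : Fin n} {θ : ℝ} (hi : ‖α v₀ i‖ = (qq v₀.1 : ℝ) ^ θ) :
    EK α v₀ ((2 * θ : ℝ) : ℂ) = 0 := by
  have hp0 : (0 : ℝ) < (qq v₀.1 : ℝ) := qq_pos v₀.1
  refine Finset.prod_eq_zero (Finset.mem_univ (i, i)) ?_
  have h1 : α v₀ i * (starRingEnd ℂ) (α v₀ i) = ((qq v₀.1 : ℕ) : ℂ) ^ ((2 * θ : ℝ) : ℂ) := by
    rw [Complex.mul_conj, Complex.normSq_eq_norm_sq, hi, ← Real.rpow_natCast, ← Real.rpow_mul hp0.le,
      Complex.ofReal_cpow hp0.le]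
    push_cast
    congr 1
    ring
  simp only
  rw [h1, ← Complex.cpow_add _ _ (qc_ne v₀.1)]
  simp

theorem local_K (h : RepNF S d α β κ Z) (v₀ : PL S) {s : ℂ} (hs : 1 < s.re) :
    cexp (∑' k : ℕ, ((tk d α (v₀, k) / ((k : ℝ) + 1) : ℝ) : ℂ) * (((qq v₀.1 : ℕ) : ℂ) ^ (-s)) ^ (k + 1)) *
      EK α v₀ s = (1 - ((qq v₀.1 : ℕ) : ℂ) ^ (-s)) ^ d := by
  set z : ℂ := ((qq v₀.1 : ℕ) : ℂ) ^ (-s) with hz
  have hzn : ‖z‖ < 1 := by
    rw [hz, qc_norm]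
    exact Real.rpow_lt_one_of_one_lt_of_neg (one_lt_qq v₀.1) (by linarith)
  have h1 := euler_exp (α v₀) (z := z) (fun i => nbd h v₀ i hs)
  have h2 := euler_exp (fun _ : Fin 1 => (1 : ℂ)) (z := z) (fun i => by
    rw [norm_one, one_pow, one_mul]
    exact hzn)
  have hsA : Summable fun k : ℕ => ((‖∑ i, α v₀ i ^ (k + 1)‖ ^ 2 / ((k : ℝ) + 1) : ℝ) : ℂ) * z ^ (k + 1) := by
    have h3 := (h.summable s.re hs).comp_injective (i := fun k : ℕ => ((v₀, k) : PL S × ℕ))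
      (fun a b hab => (Prod.mk.inj hab).2)
    refine Summable.of_norm (h3.congr fun k => ?_)
    rw [norm_mul, norm_pow, hz, qc_norm, Complex.norm_real, Real.norm_of_nonneg (by positivity)]
    rfl
  have hsB : Summable fun k : ℕ => ((1 / ((k : ℝ) + 1) : ℝ) : ℂ) * z ^ (k + 1) := by
    have hgeo : Summable fun k : ℕ => ‖z‖ ^ (k + 1) := by
      have := (summable_geometric_of_lt_one (norm_nonneg z) hzn).mul_right ‖z‖
      refine this.congr fun k => ?_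
      rw [pow_succ]
    refine Summable.of_norm (Summable.of_nonneg_of_le (fun k => norm_nonneg _) (fun k => ?_) hgeo)
    rw [norm_mul, norm_pow, Complex.norm_real, Real.norm_of_nonneg (by positivity)]
    refine mul_le_of_le_one_left (by positivity) ?_
    have hk : (0 : ℝ) ≤ k := Nat.cast_nonneg _
    rw [div_le_one (by linarith)]
    linarith
  have e1 : ∑' k : ℕ, ((tk d α (v₀, k) / ((k : ℝ) + 1) : ℝ) : ℂ) * z ^ (k + 1) =
      (∑' k : ℕ, ((‖∑ i, α v₀ i ^ (k + 1)‖ ^ 2 / ((k : ℝ) + 1) : ℝ) : ℂ) * z ^ (k + 1)) -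
      d * ∑' k : ℕ, ((1 / ((k : ℝ) + 1) : ℝ) : ℂ) * z ^ (k + 1) := by
    rw [← tsum_mul_left, ← hsA.tsum_sub (hsB.mul_left (d : ℂ))]
    refine tsum_congr fun k => ?_
    unfold tk
    push_cast
    ring
  have e2 : ∑' k : ℕ, ((‖∑ _i : Fin 1, (1 : ℂ) ^ (k + 1)‖ ^ 2 / ((k : ℝ) + 1) : ℝ) : ℂ) * z ^ (k + 1) =
      ∑' k : ℕ, ((1 / ((k : ℝ) + 1) : ℝ) : ℂ) * z ^ (k + 1) := by
    refine tsum_congr fun k => ?_
    simp
  have e3 : ∏ _x : Fin 1 × Fin 1, (1 - (1 : ℂ) * (starRingEnd ℂ) 1 * z) = 1 - z := by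
    simp
  rw [e2, e3] at h2
  rw [e1, Complex.exp_sub]
  set A := cexp (∑' k : ℕ, ((‖∑ i, α v₀ i ^ (k + 1)‖ ^ 2 / ((k : ℝ) + 1) : ℝ) : ℂ) * z ^ (k + 1))
  rw [Complex.exp_nat_mul]
  set B := cexp (∑' k : ℕ, ((1 / ((k : ℝ) + 1) : ℝ) : ℂ) * z ^ (k + 1)) with hB
  have hB0 : B ≠ 0 := Complex.exp_ne_zero _
  have h5 : (1 - z) = B⁻¹ := by
    field_simp
    linear_combination h2
  rw [h5, inv_pow]
  unfold EK
  rw [← hz]
  rw [div_mul_eq_mul_div, h1, one_div]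

end Pool.Agent.R314.SX
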