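import Pool.Agent.R314.SX.NF2

/-! Isobaric sums over number fields, at every scale. -/

set_option autoImplicit false

open Complex MeasureTheory Set Filter Topology NumberField IsDedekindDomain
open Pool.Agent.W189.TP (DS summ_cplx)
open Pool.Agent.TH861.GL3 (PL qq two_le_qq qq_pos one_lt_qq summable_qq)

namespace Pool.Agent.R314.SX

variable {K : Type*} [Field K] [NumberField K] {S : Finset (HeightOneSpectrum (𝓞 K))} {n d N : ℕ}

/-- `ρ` is a zero or a pole of `L^S(s, Π × Π~) / ζ_K^S(s)^d` -/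
def NSing (d : ℕ) (α : PL S → Fin n → ℂ) (ρ : ℂ) : Prop :=
  ∃ F : ℂ → ℂ, MeromorphicOn F Set.univ ∧
    (∀ s : ℂ, 1 < s.re → F s = Complex.exp (∑' x : PL S × ℕ,
      (((‖∑ i, α x.1 i ^ (x.2 + 1)‖ ^ 2 - d) / ((x.2 : ℝ) + 1) : ℝ) : ℂ) * (((qq x.1.1 : ℕ) : ℂ) ^ (-s)) ^ (x.2 + 1))) ∧
    meromorphicOrderAt F ρ ≠ 0

/-- below twice an exponent of `Π_v`, `v ∉ S`, below a real pole of a local factor of `L(s, Π × Π~)`, or below the real
part of a zero or pole of `L^S(s, Π × Π~) / ζ_K^S(s)^d` -/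
def NAdm (S : Finset (HeightOneSpectrum (𝓞 K))) (d : ℕ) (α : PL S → Fin n → ℂ)
    (β : HeightOneSpectrum (𝓞 K) → Fin (n ^ 2) → ℂ) (κ : Fin N → ℂ) (c : ℝ) : Prop :=
  (∃ (v : PL S) (i : Fin n), c < 2 * |Real.logb (qq v.1 : ℝ) ‖α v i‖|) ∨
  (∃ v ∈ S, ∃ (i : Fin (n ^ 2)) (x : ℝ), β v i = ((qq v : ℕ) : ℂ) ^ (x : ℂ) ∧ c < x) ∨
  (∃ (j : Fin N) (x : ℝ), κ j = -(x : ℂ) ∧ c < x) ∨ ∃ ρ : ℂ, c < ρ.re ∧ NSing d α ρ

variable {α : PL S → Fin n → ℂ} {β : HeightOneSpectrum (𝓞 K) → Fin (n ^ 2) → ℂ} {κ : Fin N → ℂ} {Z : ℂ → ℂ}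

theorem NSing_eq (s : ℂ) : (∑' x : PL S × ℕ, (((‖∑ i, α x.1 i ^ (x.2 + 1)‖ ^ 2 - d) / ((x.2 : ℝ) + 1) : ℝ) : ℂ) *
    (((qq x.1.1 : ℕ) : ℂ) ^ (-s)) ^ (x.2 + 1)) = DS (DG (tk d α)) (LG lv) s := by
  unfold DS
  refine tsum_congr fun x => ?_
  rw [exp_LG]
  rfl

theorem zero_order {F : ℂ → ℂ} {x : ℂ} (han : AnalyticAt ℂ F x) (hFx : F x = 0) :
    meromorphicOrderAt F x ≠ 0 := order_ne_of_zero han hFx

theorem nf_zero (h : RepNF S d α β κ Z) {c : ℝ} (hc : 0 ≤ c) (hz : ∀ x : ℝ, c < x → x < 1 → Z (x : ℂ) ≠ 0)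
    {G : ℂ → ℂ} (hG : Differentiable ℂ G)
    (hE : ∀ s : ℂ, 1 < s.re → G s * ∏ v ∈ S, ∏ i, (1 - β v i * ((qq v : ℕ) : ℂ) ^ (-s)) =
      (s - 1) ^ d * Complex.exp (logRK α s)) {x : ℝ} (hcx : c < x) (h0 : UK S β G (x : ℂ) = 0) {lam : ℝ}
    (hlam : 0 < lam) :
    ∃ a : ℝ, c < a ∧ ∀ᶠ X : ℝ in atTop, X ^ a ≤ ∑' x : PL S × ℕ, (open Classical in
      if (1 - lam) * Real.log X ≤ LG lv x ∧ LG lv x ≤ Real.log X then max 0 (-(tk d α x)) else 0) := by
  have := Pool.Agent.TH861.GL3.countable_primes K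
  obtain ⟨F, hF, hFE, han, hFd⟩ := nf_quot (ℓ := lv (S := S)) (t := tk d α) (UK_diff (S := S) (β := β) hG)
    (VK_diff (S := S) (d := d) h.zeta_entire) (fun s hs => VK_one h hs) (fun s hs => UVK h hE hs)
    (fun x hx => VK_real h hc hz hx)
  refine nf_key lv_two lv_fin (fun τ hτ => tk_summ h.summable hτ) hF hFE hc
    (fun x hx => (han x hx).meromorphicOrderAt_nonneg) (ρ := (x : ℂ)) (by simpa using hcx) ?_ hlam
  refine order_ne_of_zero (han x hcx) ?_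
  rw [hFd _ (VK_real h hc hz hcx), h0, zero_div]

theorem nf_adm (h : RepNF S d α β κ Z) {c : ℝ} (hc : 0 < c) (hz : ∀ x : ℝ, c < x → x < 1 → Z (x : ℂ) ≠ 0)
    (hadm : NAdm S d α β κ c) {lam : ℝ} (hlam : 0 < lam) :
    ∃ a : ℝ, c < a ∧ ∀ᶠ X : ℝ in atTop, X ^ a ≤ ∑' x : PL S × ℕ, (open Classical in
      if (1 - lam) * Real.log X ≤ LG lv x ∧ LG lv x ≤ Real.log X then max 0 (-(tk d α x)) else 0) := by
  classical
  have := Pool.Agent.TH861.GL3.countable_primes K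
  obtain ⟨G, Ξ, Q, hG, hΞ, hQ, hE, hid⟩ := h.continuation
  rcases hadm with ⟨v, i, hv⟩ | ⟨v, hv, i, x, hx, hcx⟩ | ⟨j, x, hx, hcx⟩ | ⟨ρ, hρ, F, hF, hFE, ho⟩
  · -- remove the Euler factor at `v`
    have hp1 : (1 : ℝ) < (qq v.1 : ℝ) := one_lt_qq v.1
    have hp0 : (0 : ℝ) < (qq v.1 : ℝ) := by linarith
    obtain ⟨i', θ, hθ, hi'⟩ : ∃ (i' : Fin n) (θ : ℝ), c < 2 * θ ∧ ‖α v i'‖ = (qq v.1 : ℝ) ^ θ := by
      set t : ℝ := Real.logb (qq v.1 : ℝ) ‖α v i‖ with ht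
      have h0 : 0 < ‖α v i‖ := norm_pos_iff.2 (h.ne_zero v i)
      have h1 : (qq v.1 : ℝ) ^ t = ‖α v i‖ := Real.rpow_logb hp0 hp1.ne' h0
      rcases le_total 0 t with h2 | h2
      · rw [abs_of_nonneg h2] at hv
        exact ⟨i, t, hv, h1.symm⟩
      · rw [abs_of_nonpos h2] at hv
        obtain ⟨τ, hτ⟩ := h.unitary v
        refine ⟨τ i, -t, hv, ?_⟩
        rw [hτ, norm_inv, RCLike.norm_conj, ← h1, Real.rpow_neg hp0.le]
    set U : ℂ → ℂ := fun s => UK S β G s * EK α v s with hU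
    set V : ℂ → ℂ := fun s => VK S d Z s * (1 - ((qq v.1 : ℕ) : ℂ) ^ (-s)) ^ d with hV
    have hUd : Differentiable ℂ U := (UK_diff hG).mul (EK_diff v)
    have hVd : Differentiable ℂ V := (VK_diff h.zeta_entire).mul (((differentiable_const _).sub (qc_diff v.1)).pow d)
    have hV1 : ∀ s : ℂ, 1 < s.re → V s ≠ 0 := fun s hs =>
      mul_ne_zero (VK_one h hs) (pow_ne_zero _ (one_sub_ne v.1 (by linarith)))
    have hVr : ∀ x : ℝ, c < x → V (x : ℂ) ≠ 0 := fun x hx =>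
      mul_ne_zero (VK_real h hc.le hz hx) (pow_ne_zero _ (one_sub_ne v.1 (by
        rw [Complex.ofReal_re]
        linarith)))
    have hUV : ∀ s : ℂ, 1 < s.re → U s = V s * cexp (DS (DG (tr0 v (tk d α))) (LG lv) s) := by
      intro s hs
      have e1 := UVK h hE hs
      rw [tr0_DS v (tk_summ h.summable hs), Complex.exp_add] at e1
      have e2 := local_K h v hs
      show UK S β G s * EK α v s = VK S d Z s * (1 - ((qq v.1 : ℕ) : ℂ) ^ (-s)) ^ d * _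
      rw [← e2, e1]
      ring
    obtain ⟨F, hF, hFE, han, hFd⟩ := nf_quot (ℓ := lv (S := S)) (t := tr0 v (tk d α)) hUd hVd hV1 hUV hVr
    obtain ⟨a, ha, hk⟩ := nf_key lv_two lv_fin (fun τ hτ => tr0_summ v (tk_summ h.summable hτ)) hF hFE hc.le
      (fun x hx => (han x hx).meromorphicOrderAt_nonneg) (ρ := ((2 * θ : ℝ) : ℂ)) (by simpa using hθ)
      (order_ne_of_zero (han _ hθ) (by
        rw [hFd _ (hVr _ hθ), hU]
        simp only
        rw [EK_zero hi', mul_zero, zero_div])) hlam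
    refine ⟨a, ha, hk.mono fun X hX => hX.trans ?_⟩
    have hs : ∀ w : PL S × ℕ → ℝ, Summable fun x : PL S × ℕ =>
        if (1 - lam) * Real.log X ≤ LG lv x ∧ LG lv x ≤ Real.log X then w x else 0 := by
      intro w
      refine summable_of_hasFiniteSupport ((LG_fin lv_two lv_fin (Real.log X)).subset fun x hx => ?_)
      by_contra h4
      exact hx (if_neg fun h5 => h4 h5.2)
    refine Summable.tsum_le_tsum (fun x => ?_) (hs _) (hs _)
    split_ifs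
    · unfold tr0
      split_ifs
      · rw [neg_zero, max_self]
        exact le_max_left _ _
      · exact le_rfl
    · exact le_rfl
  · refine nf_zero h hc.le hz hG hE hcx ?_ hlam
    unfold UK
    refine mul_eq_zero_of_right _ (Finset.prod_eq_zero hv (Finset.prod_eq_zero (Finset.mem_univ i) ?_))
    rw [hx, ← Complex.cpow_add _ _ (qc_ne v)]
    simp
  · refine nf_zero h hc.le hz hG hE hcx ?_ hlam
    have hQc : (Q : ℂ) ≠ 0 := by exact_mod_cast hQ.ne'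
    have hA : Differentiable ℂ fun s : ℂ => s ^ d * G s * (Q : ℂ) ^ s := by
      refine ((differentiable_id.pow d).mul hG).mul fun s => ?_
      exact (differentiableAt_id).const_cpow (Or.inl hQc)
    have h1 := gam_zero' Finset.univ κ hA hΞ (fun s hs => by
      rw [hid s hs]
      ring) (Finset.mem_univ j) hx
    have h2 : (Q : ℂ) ^ (x : ℂ) ≠ 0 := by
      rw [Complex.cpow_def_of_ne_zero hQc]
      exact Complex.exp_ne_zero _
    have h3 : (x : ℂ) ≠ 0 := by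
      have : (0 : ℝ) < x := by linarith
      exact_mod_cast this.ne'
    have h4 : G (x : ℂ) = 0 := by
      rcases mul_eq_zero.1 h1 with h5 | h5
      · rcases mul_eq_zero.1 h5 with h6 | h6
        · exact absurd h6 (pow_ne_zero d h3)
        · exact h6
      · exact absurd h5 h2
    unfold UK
    rw [h4, zero_mul]
  · obtain ⟨F', hF', hFE', han, hFd⟩ := nf_quot (ℓ := lv (S := S)) (t := tk d α) (UK_diff (S := S) (β := β) hG)
      (VK_diff (S := S) (d := d) h.zeta_entire) (fun s hs => VK_one h hs) (fun s hs => UVK h hE hs)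
      (fun x hx => VK_real h hc.le hz hx)
    refine nf_key lv_two lv_fin (fun τ hτ => tk_summ h.summable hτ) hF' hFE' hc.le
      (fun x hx => (han x hx).meromorphicOrderAt_nonneg) hρ ?_ hlam
    rw [← Pool.Agent.TH949.TX.order_eq hF hF' (fun s hs => ?_) ρ]
    · exact ho
    · rw [hFE s hs, hFE' s hs, NSing_eq]

theorem lv_le_iff {X : ℝ} (hX : 0 < X) (v : PL S) : lv v ≤ Real.log X ↔ (qq v.1 : ℝ) ≤ X := by
  unfold lv
  rw [Real.log_le_log_iff (qq_pos v.1) hX]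

theorem le_lv_iff {X : ℝ} (hX : 0 < X) (v : PL S) (a : ℝ) : a * Real.log X ≤ lv v ↔ X ^ a ≤ (qq v.1 : ℝ) := by
  unfold lv
  rw [← Real.log_rpow hX, Real.log_le_log_iff (by positivity) (qq_pos v.1)]

theorem tk_zero (v : PL S) : tk d α (v, 0) = ‖∑ i, α v i‖ ^ 2 - d := by
  unfold tk
  simp only [zero_add, pow_one]

theorem tk_neg_le (x : PL S × ℕ) : -(tk d α x) ≤ d := by
  unfold tk
  nlinarith [sq_nonneg ‖∑ i, α x.1 i ^ (x.2 + 1)‖]

open scoped Classical in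
theorem nf_windows (h : RepNF S d α β κ Z) {c : ℝ} (hc2 : 1 / 2 ≤ c) (hz : ∀ x : ℝ, c < x → x < 1 → Z (x : ℂ) ≠ 0)
    (hadm : NAdm S d α β κ c) {lam : ℝ} (hlam : 0 < lam) :
    ∀ᶠ X : ℝ in atTop, X ^ c ≤ ∑' v : PL S,
      if X ^ (1 - lam) ≤ (qq v.1 : ℝ) ∧ (qq v.1 : ℝ) ≤ X then max 0 ((d : ℝ) - ‖∑ i, α v i‖ ^ 2) else 0 := by
  have h1 := nf_win lv_two lv_fin lv_cnt (t := tk d α) (C := d) (Nat.cast_nonneg _) tk_neg_le hc2
    (nf_adm h (by linarith) hz hadm hlam)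
  filter_upwards [h1, eventually_gt_atTop 0] with X h2 h3
  refine h2.trans (le_of_eq (tsum_congr fun v => ?_))
  simp only [lv_le_iff h3, le_lv_iff h3, tk_zero, neg_sub]

open scoped Classical in
theorem nf_balance (h : RepNF S d α β κ Z) {c : ℝ} (hc2 : 1 / 2 ≤ c) (hz : ∀ x : ℝ, c < x → x < 1 → Z (x : ℂ) ≠ 0)
    {ε : ℝ} (hε : 0 < ε) :
    ∀ᶠ X : ℝ in atTop, (∑' v : PL S, if (qq v.1 : ℝ) ≤ X then max 0 (‖∑ i, α v i‖ ^ 2 - d) else 0) ≤
      X ^ ε * ((∑' v : PL S, if (qq v.1 : ℝ) ≤ X ^ (1 + ε) then max 0 ((d : ℝ) - ‖∑ i, α v i‖ ^ 2) else 0) +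
        X ^ c) := by
  have := Pool.Agent.TH861.GL3.countable_primes K
  obtain ⟨G, Ξ, Q, hG, hΞ, hQ, hE, hid⟩ := h.continuation
  obtain ⟨F, hF, hFE, han, hFd⟩ := nf_quot (ℓ := lv (S := S)) (t := tk d α) (UK_diff (S := S) (β := β) hG)
    (VK_diff (S := S) (d := d) h.zeta_entire) (fun s hs => VK_one h hs) (fun s hs => UVK h hE hs)
    (fun x hx => VK_real h (by linarith) hz hx)
  have h1 := nf_bal lv_two lv_fin lv_cnt (fun τ hτ => tk_summ h.summable hτ) hF hFE hc2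
    (fun x hx => (han x hx).meromorphicOrderAt_nonneg) (C := d) (Nat.cast_nonneg _) tk_neg_le hε
  filter_upwards [h1, eventually_gt_atTop 0] with X h2 h3
  have e1 : ∀ v : PL S, lv v ≤ (1 + ε) * Real.log X ↔ (qq v.1 : ℝ) ≤ X ^ (1 + ε) := fun v => by
    rw [← Real.log_rpow h3]
    exact lv_le_iff (by positivity) v
  simpa only [lv_le_iff h3, e1, tk_zero, neg_sub] using h2

end Pool.Agent.R314.SX
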