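import Pool.Agent.R314.SX.NF3

/-! Isobaric sums over number fields, at every scale: counting. -/

set_option autoImplicit false

open Complex MeasureTheory Set Filter Topology NumberField IsDedekindDomain
open Pool.Agent.TH861.GL3 (PL qq two_le_qq qq_pos one_lt_qq summable_qq)

namespace Pool.Agent.R314.SX

variable {K : Type*} [Field K] [NumberField K] {S : Finset (HeightOneSpectrum (𝓞 K))} {n d N : ℕ}
variable {α : PL S → Fin n → ℂ} {β : HeightOneSpectrum (𝓞 K) → Fin (n ^ 2) → ℂ} {κ : Fin N → ℂ} {Z : ℂ → ℂ}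

theorem qq_le_fin (X : ℝ) : {v : PL S | (qq v.1 : ℝ) ≤ X}.Finite := by
  rcases le_or_gt X 0 with h | h
  · refine (Set.finite_empty (α := PL S)).subset fun v hv => ?_
    have h1 := qq_pos v.1
    have h2 : (qq v.1 : ℝ) ≤ X := hv
    linarith
  · exact (lv_fin (S := S) (Real.log X)).subset fun v hv => (lv_le_iff h v).2 hv

open scoped Classical in
theorem sum_le_count (A : PL S → Prop) (f : PL S → ℝ) {C X : ℝ} (hC : 0 ≤ C) (hf : ∀ v, f v ≤ C) (Q : PL S → Prop)
    (hQ : ∀ v, ¬ Q v → f v ≤ 0) (hA : ∀ v, A v → (qq v.1 : ℝ) ≤ X) :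
    (∑' v : PL S, if A v then f v else 0) ≤ C * (({v : PL S | A v ∧ Q v}.ncard : ℕ) : ℝ) := by
  have hfin : {v : PL S | A v ∧ Q v}.Finite := (qq_le_fin (S := S) X).subset fun v hv => hA v hv.1
  have hs : ∑' v : PL S, (if v ∈ hfin.toFinset then C else 0) = C * (({v : PL S | A v ∧ Q v}.ncard : ℕ) : ℝ) := by
    rw [tsum_eq_sum (s := hfin.toFinset) (fun p hp => if_neg hp), Finset.sum_congr rfl (fun p hp => if_pos hp),
      Finset.sum_const, Set.ncard_eq_toFinset_card _ hfin]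
    simp [mul_comm]
  rw [← hs]
  refine Summable.tsum_le_tsum (fun v => ?_) ?_ ?_
  · by_cases h3 : A v
    · by_cases h4 : Q v
      · rw [if_pos h3, if_pos (hfin.mem_toFinset.2 ⟨h3, h4⟩)]
        exact hf v
      · rw [if_pos h3, if_neg (fun h5 => h4 (hfin.mem_toFinset.1 h5).2)]
        exact hQ v h4
    · rw [if_neg h3]
      split_ifs
      · exact hC
      · exact le_rfl
  · refine summable_of_hasFiniteSupport ((qq_le_fin (S := S) X).subset fun v hv => ?_)
    by_contra h7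
    exact hv (if_neg fun h8 => h7 (hA v h8))
  · refine summable_of_hasFiniteSupport ((Finset.finite_toSet hfin.toFinset).subset fun v hv => ?_)
    by_contra h7
    exact hv (if_neg fun h8 => h7 (Finset.mem_coe.2 h8))

open scoped Classical in
theorem nf_count (hd : 1 ≤ d) (h : RepNF S d α β κ Z) {c : ℝ} (hc2 : 1 / 2 ≤ c)
    (hz : ∀ x : ℝ, c < x → x < 1 → Z (x : ℂ) ≠ 0) (hadm : NAdm S d α β κ c) {lam : ℝ} (hlam : 0 < lam) :
    ∀ᶠ X : ℝ in atTop, X ^ c ≤ (({v : PL S | (X ^ (1 - lam) ≤ (qq v.1 : ℝ) ∧ (qq v.1 : ℝ) ≤ X) ∧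
      ‖∑ i, α v i‖ ^ 2 < d}.ncard : ℕ) : ℝ) := by
  obtain ⟨a, ha, hk⟩ := nf_adm h (by linarith) hz hadm hlam
  have hd0 : (0 : ℝ) < d := by exact_mod_cast hd
  have h1 := nf_win lv_two lv_fin lv_cnt (t := tk d α) (C := d) (Nat.cast_nonneg _) tk_neg_le (c := (c + a) / 2)
    (lam := lam) (by linarith) ⟨a, by linarith, hk⟩
  filter_upwards [h1, eventually_gt_atTop 0, pow_const (C := (d : ℝ)) (show c < (c + a) / 2 by linarith)] with X h2 h3 h4
  refine le_of_mul_le_mul_left ?_ hd0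
  refine (h4.trans h2).trans ?_
  refine le_trans (le_of_eq (tsum_congr fun v => ?_)) (sum_le_count (S := S)
    (fun v => X ^ (1 - lam) ≤ (qq v.1 : ℝ) ∧ (qq v.1 : ℝ) ≤ X) (fun v => max 0 ((d : ℝ) - ‖∑ i, α v i‖ ^ 2)) (X := X)
    hd0.le (fun v => max_le hd0.le (by nlinarith [sq_nonneg ‖∑ i, α v i‖])) (fun v => ‖∑ i, α v i‖ ^ 2 < d)
    (fun v hv => max_le le_rfl (by linarith [not_lt.1 hv])) (fun v hv => hv.2))
  simp only [lv_le_iff h3, le_lv_iff h3, tk_zero, neg_sub]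
  split_ifs <;> rfl

end Pool.Agent.R314.SX
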