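import Pool.Agent.R314.SX.NF4

/-! Isobaric sums over number fields, at every scale: large traces against small traces. -/

set_option autoImplicit false

open Complex MeasureTheory Set Filter Topology NumberField IsDedekindDomain
open Pool.Agent.TH861.GL3 (PL qq two_le_qq qq_pos one_lt_qq summable_qq)

namespace Pool.Agent.R314.SX

variable {K : Type*} [Field K] [NumberField K] {S : Finset (HeightOneSpectrum (𝓞 K))} {n d N : ℕ}
variable {α : PL S → Fin n → ℂ} {β : HeightOneSpectrum (𝓞 K) → Fin (n ^ 2) → ℂ} {κ : Fin N → ℂ} {Z : ℂ → ℂ}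

/-- the number of small traces -/
noncomputable def NS (d : ℕ) (α : PL S → Fin n → ℂ) (X : ℝ) : ℝ :=
  (({v : PL S | (qq v.1 : ℝ) ≤ X ∧ ‖∑ i, α v i‖ ^ 2 < d}.ncard : ℕ) : ℝ)

theorem NS_nonneg (X : ℝ) : 0 ≤ NS d α X := Nat.cast_nonneg _

theorem NS_mono {X Y : ℝ} (hXY : X ≤ Y) : NS d α X ≤ NS d α Y := by
  refine Nat.cast_le.2 (Set.ncard_le_ncard (fun v hv => ⟨hv.1.trans hXY, hv.2⟩) ?_)
  exact (qq_le_fin (S := S) Y).subset fun v hv => hv.1

open scoped Classical in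
/-- **The excess is bounded by the number of small traces.** -/
theorem nf_excess (hd : 1 ≤ d) (h : RepNF S d α β κ Z) {c : ℝ} (hc2 : 1 / 2 ≤ c)
    (hz : ∀ x : ℝ, c < x → x < 1 → Z (x : ℂ) ≠ 0) {ε : ℝ} (hε : 0 < ε) :
    ∀ᶠ X : ℝ in atTop, (∑' v : PL S, if (qq v.1 : ℝ) ≤ X then max 0 (‖∑ i, α v i‖ ^ 2 - d) else 0) ≤
      X ^ ε * (NS d α (X ^ (1 + ε)) + X ^ c) := by
  have hd0 : (0 : ℝ) < d := by exact_mod_cast hd
  have hsmall : ∀ X : ℝ, (∑' v : PL S, if (qq v.1 : ℝ) ≤ X then max 0 ((d : ℝ) - ‖∑ i, α v i‖ ^ 2) else 0) ≤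
      d * NS d α X := fun X => sum_le_count (S := S) (fun v => (qq v.1 : ℝ) ≤ X)
        (fun v => max 0 ((d : ℝ) - ‖∑ i, α v i‖ ^ 2)) (X := X) hd0.le
        (fun v => max_le hd0.le (by nlinarith [sq_nonneg ‖∑ i, α v i‖])) (fun v => ‖∑ i, α v i‖ ^ 2 < d)
        (fun v hv => max_le le_rfl (by linarith [not_lt.1 hv])) (fun v hv => hv)
  have hpow : ∀ C η : ℝ, 0 < η → ∀ᶠ X : ℝ in atTop, C ≤ X ^ η := fun C η hη =>
    (tendsto_rpow_atTop hη).eventually_ge_atTop C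
  filter_upwards [nf_balance h hc2 hz (ε := ε / 2) (by positivity), hpow d (ε / 2) (by positivity),
    eventually_ge_atTop 1] with X a1 a2 a3
  have hX0 : 0 < X := by linarith
  have h1 := hsmall (X ^ (1 + ε / 2))
  have h2 : NS d α (X ^ (1 + ε / 2)) ≤ NS d α (X ^ (1 + ε)) :=
    NS_mono (Real.rpow_le_rpow_of_exponent_le a3 (by linarith))
  have h3 : X ^ (ε / 2) * X ^ (ε / 2) = X ^ ε := by
    rw [← Real.rpow_add hX0]
    congr 1
    ring
  have h4 : 0 < X ^ (ε / 2) := by positivity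
  have h5 : 0 < X ^ c := by positivity
  have h6 := NS_nonneg (d := d) (α := α) (X ^ (1 + ε))
  have h7 : 1 ≤ X ^ (ε / 2) := Real.one_le_rpow a3 (by positivity)
  calc _ ≤ X ^ (ε / 2) * (_ + X ^ c) := a1
    _ ≤ X ^ (ε / 2) * (X ^ (ε / 2) * NS d α (X ^ (1 + ε)) + X ^ (ε / 2) * X ^ c) := by
        refine mul_le_mul_of_nonneg_left (add_le_add (h1.trans ?_) ?_) h4.le
        · exact mul_le_mul a2 h2 (NS_nonneg _) h4.le
        · nlinarith
    _ = X ^ ε * (NS d α (X ^ (1 + ε)) + X ^ c) := by rw [← h3]; ring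

open scoped Classical in
/-- the same, without the secondary term, if there is a violation -/
theorem nf_excess2 (hd : 1 ≤ d) (h : RepNF S d α β κ Z) {c : ℝ} (hc2 : 1 / 2 ≤ c)
    (hz : ∀ x : ℝ, c < x → x < 1 → Z (x : ℂ) ≠ 0) (hadm : NAdm S d α β κ c) {ε : ℝ} (hε : 0 < ε) :
    ∀ᶠ X : ℝ in atTop, (∑' v : PL S, if (qq v.1 : ℝ) ≤ X then max 0 (‖∑ i, α v i‖ ^ 2 - d) else 0) ≤
      X ^ ε * NS d α (X ^ (1 + ε)) := by
  have hpow : ∀ C η : ℝ, 0 < η → ∀ᶠ X : ℝ in atTop, C ≤ X ^ η := fun C η hη =>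
    (tendsto_rpow_atTop hη).eventually_ge_atTop C
  have hw := nf_count hd h hc2 hz hadm one_pos
  have h3 : Tendsto (fun X : ℝ => X ^ (1 + ε)) atTop atTop := tendsto_rpow_atTop (by linarith)
  filter_upwards [nf_excess hd h hc2 hz (ε := ε / 2) (by positivity), hpow 2 (ε / 2) (by positivity), h3.eventually hw,
    eventually_ge_atTop 1] with X a1 a2 a3 a4
  have hX0 : 0 < X := by linarith
  have b1 : NS d α (X ^ (1 + ε / 2)) ≤ NS d α (X ^ (1 + ε)) :=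
    NS_mono (Real.rpow_le_rpow_of_exponent_le a4 (by linarith))
  have b2 : X ^ c ≤ NS d α (X ^ (1 + ε)) := by
    have c1 : X ^ c ≤ (X ^ (1 + ε)) ^ c := by
      rw [← Real.rpow_mul hX0.le]
      exact Real.rpow_le_rpow_of_exponent_le a4 (by nlinarith)
    refine (c1.trans a3).trans (Nat.cast_le.2 (Set.ncard_le_ncard (fun v hv => ⟨hv.1.2, hv.2⟩) ?_))
    exact (qq_le_fin (S := S) _).subset fun v hv => hv.1
  have h3 : X ^ (ε / 2) * X ^ (ε / 2) = X ^ ε := by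
    rw [← Real.rpow_add hX0]
    congr 1
    ring
  have h4 : 0 < X ^ (ε / 2) := by positivity
  have h6 := NS_nonneg (d := d) (α := α) (X ^ (1 + ε))
  calc _ ≤ X ^ (ε / 2) * (NS d α (X ^ (1 + ε / 2)) + X ^ c) := a1
    _ ≤ X ^ (ε / 2) * (2 * NS d α (X ^ (1 + ε))) := mul_le_mul_of_nonneg_left (by linarith) h4.le
    _ ≤ X ^ (ε / 2) * (X ^ (ε / 2) * NS d α (X ^ (1 + ε))) :=
        mul_le_mul_of_nonneg_left (mul_le_mul_of_nonneg_right a2 h6) h4.le
    _ = X ^ ε * NS d α (X ^ (1 + ε)) := by rw [← mul_assoc, h3]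

end Pool.Agent.R314.SX
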