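import Pool.Agent.R314.SX.NF5

/-! Cusp forms of weight two on `GL_2` over number fields and their symmetric powers. -/

set_option autoImplicit false

open Complex Filter NumberField IsDedekindDomain
open Pool.Agent.TH861.GL3 (PL qq two_le_qq qq_pos one_lt_qq)

namespace Pool.Agent.R314.SX

variable {K : Type*} [Field K] [NumberField K] {S : Finset (HeightOneSpectrum (𝓞 K))}

/-- the parameters `α_0^i α_1^{j-i}` of `sym^j π_v` -/
noncomputable def symP (α : PL S → Fin 2 → ℂ) (j : ℕ) (v : PL S) (i : Fin (j + 1)) : ℂ :=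
  α v 0 ^ (i : ℕ) * α v 1 ^ (j - i)

/-- `W_j(y) = U_j(√y)²`, `1 ≤ j ≤ 4` -/
noncomputable def W2 (j : ℕ) (y : ℝ) : ℝ :=
  if j = 1 then y else if j = 2 then (y - 1) ^ 2 else if j = 3 then y * (y - 2) ^ 2 else (y ^ 2 - 3 * y + 1) ^ 2

theorem W2_one (y : ℝ) : W2 1 y = y := by simp [W2]
theorem W2_two (y : ℝ) : W2 2 y = (y - 1) ^ 2 := by simp [W2]
theorem W2_three (y : ℝ) : W2 3 y = y * (y - 2) ^ 2 := by simp [W2]
theorem W2_four (y : ℝ) : W2 4 y = (y ^ 2 - 3 * y + 1) ^ 2 := by simp [W2]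

/-- the relations of unitary parameters -/
theorem unit_rel {a b : ℂ} (h : ∃ τ : Equiv.Perm (Fin 2), ∀ i, (![b, a] : Fin 2 → ℂ) (τ i) =
    ((starRingEnd ℂ) ((![b, a] : Fin 2 → ℂ) i))⁻¹) (ha : a ≠ 0) (hb : b ≠ 0) :
    ‖a * b‖ = 1 ∧ (a + b) ^ 2 = (a * b) * ((‖a + b‖ ^ 2 : ℝ) : ℂ) := by
  obtain ⟨τ, hτ⟩ := h
  have h1 : a + b = (starRingEnd ℂ) (a⁻¹ + b⁻¹) := by
    have e1 := Equiv.sum_comp τ (![b, a] : Fin 2 → ℂ)
    rw [Finset.sum_congr rfl (fun i _ => hτ i)] at e1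
    rw [Fin.sum_univ_two, Fin.sum_univ_two] at e1
    simp only [Matrix.cons_val_zero, Matrix.cons_val_one] at e1
    rw [map_add, map_inv₀, map_inv₀, add_comm ((starRingEnd ℂ) a)⁻¹, e1, add_comm]
  have h2 : (a * b) * (starRingEnd ℂ) (a * b) = 1 := by
    have e1 := Equiv.prod_comp τ (![b, a] : Fin 2 → ℂ)
    rw [Finset.prod_congr rfl (fun i _ => hτ i)] at e1
    rw [Fin.prod_univ_two, Fin.prod_univ_two] at e1
    simp only [Matrix.cons_val_zero, Matrix.cons_val_one] at e1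
    have h3 : (starRingEnd ℂ) a ≠ 0 := (map_ne_zero _).2 ha
    have h4 : (starRingEnd ℂ) b ≠ 0 := (map_ne_zero _).2 hb
    rw [map_mul, mul_comm a b, ← e1]
    field_simp
  have h3 : ‖a * b‖ = 1 := by
    rw [Complex.mul_conj, Complex.normSq_eq_norm_sq] at h2
    have h4 : ‖a * b‖ ^ 2 = 1 := by exact_mod_cast h2
    nlinarith [norm_nonneg (a * b)]
  refine ⟨h3, ?_⟩
  have h4 : (starRingEnd ℂ) (a + b) = (a + b) / (a * b) := by
    conv_lhs => rw [h1]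
    rw [Complex.conj_conj]
    field_simp
    ring
  have h5 : ((‖a + b‖ ^ 2 : ℝ) : ℂ) = (a + b) * (starRingEnd ℂ) (a + b) := by
    rw [Complex.mul_conj, Complex.normSq_eq_norm_sq]
  rw [h5, h4]
  field_simp

/-- `|tr sym^j|² = W_j(|tr|²)` -/
theorem sym_trace {a b : ℂ} (hp : ‖a * b‖ = 1) (hs : (a + b) ^ 2 = (a * b) * ((‖a + b‖ ^ 2 : ℝ) : ℂ)) {j : ℕ}
    (h1 : 1 ≤ j) (h4 : j ≤ 4) : ‖∑ i : Fin (j + 1), a ^ (i : ℕ) * b ^ (j - i)‖ ^ 2 = W2 j (‖a + b‖ ^ 2) := by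
  set y : ℝ := ‖a + b‖ ^ 2 with hy
  interval_cases j
  · rw [W2_one, Fin.sum_univ_two]
    simp only [Fin.val_zero, Fin.val_one, pow_zero, pow_one, one_mul, Nat.sub_zero, Nat.sub_self, mul_one]
    rw [hy, add_comm]
  · rw [W2_two, Fin.sum_univ_three]
    have e : a ^ ((0 : Fin 3) : ℕ) * b ^ (2 - ((0 : Fin 3) : ℕ)) + a ^ ((1 : Fin 3) : ℕ) * b ^ (2 - ((1 : Fin 3) : ℕ)) +
        a ^ ((2 : Fin 3) : ℕ) * b ^ (2 - ((2 : Fin 3) : ℕ)) = (a * b) * ((y - 1 : ℝ) : ℂ) := by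
      push_cast
      simp
      linear_combination hs
    rw [e, norm_mul, hp, one_mul, Complex.norm_real, Real.norm_eq_abs, sq_abs]
  · rw [W2_three, Fin.sum_univ_four]
    have e : a ^ ((0 : Fin 4) : ℕ) * b ^ (3 - ((0 : Fin 4) : ℕ)) + a ^ ((1 : Fin 4) : ℕ) * b ^ (3 - ((1 : Fin 4) : ℕ)) +
        a ^ ((2 : Fin 4) : ℕ) * b ^ (3 - ((2 : Fin 4) : ℕ)) + a ^ ((3 : Fin 4) : ℕ) * b ^ (3 - ((3 : Fin 4) : ℕ)) =
        (a * b) * ((a + b) * ((y - 2 : ℝ) : ℂ)) := by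
      push_cast
      simp
      have e3 : (((3 : Fin 4) : ℕ)) = 3 := rfl
      linear_combination (a + b) * hs
    rw [e, norm_mul, hp, one_mul, norm_mul, Complex.norm_real, Real.norm_eq_abs, mul_pow, sq_abs]
  · rw [W2_four, Fin.sum_univ_five]
    have e : a ^ ((0 : Fin 5) : ℕ) * b ^ (4 - ((0 : Fin 5) : ℕ)) + a ^ ((1 : Fin 5) : ℕ) * b ^ (4 - ((1 : Fin 5) : ℕ)) +
        a ^ ((2 : Fin 5) : ℕ) * b ^ (4 - ((2 : Fin 5) : ℕ)) + a ^ ((3 : Fin 5) : ℕ) * b ^ (4 - ((3 : Fin 5) : ℕ)) +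
        a ^ ((4 : Fin 5) : ℕ) * b ^ (4 - ((4 : Fin 5) : ℕ)) =
        (a * b) * ((a * b) * ((y ^ 2 - 3 * y + 1 : ℝ) : ℂ)) := by
      push_cast
      simp
      linear_combination ((a + b) ^ 2 + a * b * y - 3 * (a * b)) * hs
    rw [e, norm_mul, hp, one_mul, norm_mul, hp, one_mul, Complex.norm_real, Real.norm_eq_abs, sq_abs]

/-- The Hecke eigenvalues `T v = θ(T_v)` and `R v = θ(S_v)` (`v ∉ S`) of a cuspidal representation `π` of `GL_2` over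
`K`, of weight two (`π` unitary), whose symmetric powers `sym^j π`, `j ≤ 4`, are cuspidal: `√q_v α_{0,v}`,
`√q_v α_{1,v}` are the zeros of `X² - T_v X + q_v R_v`. -/
structure IsWeightTwo (S : Finset (HeightOneSpectrum (𝓞 K))) (T R : PL S → ℂ) (α : PL S → Fin 2 → ℂ) (Z : ℂ → ℂ) :
    Prop where
  sum : ∀ v, α v 0 + α v 1 = T v / (Real.sqrt (qq v.1 : ℝ) : ℂ)
  prod : ∀ v, α v 0 * α v 1 = R v
  /-- the analytic properties of `L(s, sym^j π × (sym^j π)~)` -/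
  sym : ∀ j : ℕ, 1 ≤ j → j ≤ 4 → ∃ (N : ℕ) (β : HeightOneSpectrum (𝓞 K) → Fin ((j + 1) ^ 2) → ℂ) (κ : Fin N → ℂ),
    RepNF S 1 (symP α j) β κ Z

variable {T R : PL S → ℂ} {α : PL S → Fin 2 → ℂ} {Z : ℂ → ℂ}

theorem IsWeightTwo.ne (f : IsWeightTwo S T R α Z) (v : PL S) : α v 0 ≠ 0 ∧ α v 1 ≠ 0 := by
  obtain ⟨N, β, κ, h⟩ := f.sym 1 le_rfl (by norm_num)
  have h0 := h.ne_zero v 0
  have h1 := h.ne_zero v 1
  unfold symP at h0 h1
  simp only [Fin.val_zero, Fin.val_one, pow_zero, pow_one, one_mul, Nat.sub_zero, Nat.sub_self, mul_one] at h0 h1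
  exact ⟨h1, h0⟩

theorem IsWeightTwo.rel (f : IsWeightTwo S T R α Z) (v : PL S) : ‖α v 0 * α v 1‖ = 1 ∧
    (α v 0 + α v 1) ^ 2 = (α v 0 * α v 1) * ((‖α v 0 + α v 1‖ ^ 2 : ℝ) : ℂ) := by
  obtain ⟨N, β, κ, h⟩ := f.sym 1 le_rfl (by norm_num)
  obtain ⟨τ, hτ⟩ := h.unitary v
  refine unit_rel ⟨τ, fun i => ?_⟩ (f.ne v).1 (f.ne v).2
  have e : ∀ i : Fin 2, symP α 1 v i = (![α v 1, α v 0] : Fin 2 → ℂ) i := by
    intro i
    unfold symP
    fin_cases i <;> simp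
  rw [← e, ← e]
  exact hτ i

theorem IsWeightTwo.y_eq (f : IsWeightTwo S T R α Z) (v : PL S) :
    ‖α v 0 + α v 1‖ ^ 2 = ‖T v‖ ^ 2 / (qq v.1 : ℝ) := by
  have hq := qq_pos v.1
  rw [f.sum v, norm_div, div_pow, Complex.norm_real, Real.norm_eq_abs, sq_abs, Real.sq_sqrt hq.le]

theorem IsWeightTwo.trace (f : IsWeightTwo S T R α Z) {j : ℕ} (h1 : 1 ≤ j) (h4 : j ≤ 4) (v : PL S) :
    ‖∑ i, symP α j v i‖ ^ 2 = W2 j (‖T v‖ ^ 2 / (qq v.1 : ℝ)) := by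
  rw [← f.y_eq v]
  exact sym_trace (f.rel v).1 (f.rel v).2 h1 h4

/-- a violation -/
theorem IsWeightTwo.adm (f : IsWeightTwo S T R α Z) {j : ℕ} (h1 : 1 ≤ j) {N : ℕ}
    {β : HeightOneSpectrum (𝓞 K) → Fin ((j + 1) ^ 2) → ℂ} {κ : Fin N → ℂ} {c : ℝ} {v : PL S}
    (hc : 0 ≤ c)
    (hv : Real.sqrt (qq v.1 : ℝ) * ((qq v.1 : ℝ) ^ (c / (2 * j)) + (qq v.1 : ℝ) ^ (-(c / (2 * j)))) < ‖T v‖) :
    NAdm S 1 (symP α j) β κ c := by
  have hq := qq_pos v.1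
  have hq1 := one_lt_qq v.1
  have hj : (0 : ℝ) < j := by exact_mod_cast h1
  have hne := f.ne v
  have hrel := f.rel v
  set τ : ℝ := Real.logb (qq v.1 : ℝ) ‖α v 0‖ with hτ
  have e0 : ‖α v 0‖ = (qq v.1 : ℝ) ^ τ := (Real.rpow_logb hq hq1.ne' (norm_pos_iff.2 hne.1)).symm
  have e1 : ‖α v 1‖ = (qq v.1 : ℝ) ^ (-τ) := by
    have h2 := hrel.1
    rw [norm_mul, e0] at h2
    rw [Real.rpow_neg hq.le]
    exact eq_inv_of_mul_eq_one_right h2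
  have h2 : ‖T v‖ ≤ Real.sqrt (qq v.1 : ℝ) * ((qq v.1 : ℝ) ^ τ + (qq v.1 : ℝ) ^ (-τ)) := by
    have hs : 0 < Real.sqrt (qq v.1 : ℝ) := Real.sqrt_pos.2 hq
    have h3 : T v = (Real.sqrt (qq v.1 : ℝ) : ℂ) * (α v 0 + α v 1) := by
      rw [f.sum v]
      have : (Real.sqrt (qq v.1 : ℝ) : ℂ) ≠ 0 := by exact_mod_cast hs.ne'
      field_simp
    rw [h3, norm_mul, Complex.norm_real, Real.norm_of_nonneg hs.le, ← e0, ← e1]
    exact mul_le_mul_of_nonneg_left (norm_add_le _ _) hs.le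
  have h3 : c / (2 * j) < |τ| := by
    by_contra hcon
    push Not at hcon
    have hs : 0 < Real.sqrt (qq v.1 : ℝ) := Real.sqrt_pos.2 hq
    have h4 := (hv.trans_le h2)
    have h5 := lt_of_mul_lt_mul_left h4 hs.le
    -- cosh is monotone
    set b : ℝ := Real.log (qq v.1 : ℝ) with hb
    have hb0 : 0 < b := Real.log_pos hq1
    have e2 : ∀ x : ℝ, (qq v.1 : ℝ) ^ x + (qq v.1 : ℝ) ^ (-x) = 2 * Real.cosh (b * x) := fun x => by
      rw [Real.rpow_def_of_pos hq, Real.rpow_def_of_pos hq, Real.cosh_eq, mul_neg]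
      ring
    rw [e2, e2] at h5
    have h6 : Real.cosh (b * (c / (2 * j))) < Real.cosh (b * τ) := by linarith
    rw [Real.cosh_lt_cosh, abs_mul, abs_mul, abs_of_pos hb0] at h6
    have h7 := lt_of_mul_lt_mul_left h6 hb0.le
    have h8 : 0 ≤ c / (2 * j) := by positivity
    rw [abs_of_nonneg h8] at h7
    linarith
  refine Or.inl ⟨v, Fin.last j, ?_⟩
  unfold symP
  simp only [Fin.val_last, Nat.sub_self, pow_zero, mul_one, norm_pow]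
  rw [Real.logb_pow, ← hτ, abs_mul, Nat.abs_cast]
  rw [div_lt_iff₀ (by positivity)] at h3
  linarith

theorem W2_two_lt {y : ℝ} : W2 2 y < 1 ↔ 0 < y ∧ y < 2 := by
  rw [W2_two, sq_lt_one_iff_abs_lt_one, abs_lt]
  constructor
  · rintro ⟨h1, h2⟩
    constructor <;> linarith
  · rintro ⟨h1, h2⟩
    constructor <;> linarith

theorem W2_four_lt {y : ℝ} : W2 4 y < 1 ↔ (0 < y ∧ y < 1) ∨ (2 < y ∧ y < 3) := by
  rw [W2_four, sq_lt_one_iff_abs_lt_one, abs_lt]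
  constructor
  · rintro ⟨h1, h2⟩
    have h3 : 0 < y := by nlinarith [sq_nonneg y]
    have h4 : y < 3 := by nlinarith
    rcases lt_or_ge y 1 with h5 | h5
    · exact Or.inl ⟨h3, h5⟩
    · refine Or.inr ⟨?_, h4⟩
      nlinarith
  · rintro (⟨h1, h2⟩ | ⟨h1, h2⟩)
    · constructor <;> nlinarith
    · constructor <;> nlinarith

/-- the size of `W_j` at the violations -/
theorem W2_large {j : ℕ} (h1 : 1 ≤ j) (h4 : j ≤ 4) {y : ℝ} (hy : 4 < y) : y ^ j ≤ 32 * (W2 j y - 1) := by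
  interval_cases j
  · rw [W2_one, pow_one]
    linarith
  · rw [W2_two]
    nlinarith
  · rw [W2_three]
    have h2 : y / 2 ≤ y - 2 := by linarith
    have h3 : (y / 2) ^ 2 ≤ (y - 2) ^ 2 := pow_le_pow_left₀ (by linarith) h2 2
    have h5 : 64 ≤ y ^ 3 := by
      have := pow_le_pow_left₀ (by norm_num : (0 : ℝ) ≤ 4) hy.le 3
      linarith
    nlinarith
  · rw [W2_four]
    have h2 : y ^ 2 / 4 ≤ y ^ 2 - 3 * y + 1 := by nlinarith
    have h3 : (y ^ 2 / 4) ^ 2 ≤ (y ^ 2 - 3 * y + 1) ^ 2 := pow_le_pow_left₀ (by positivity) h2 2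
    have h5 : 256 ≤ y ^ 4 := by
      have := pow_le_pow_left₀ (by norm_num : (0 : ℝ) ≤ 4) hy.le 4
      linarith
    nlinarith

end Pool.Agent.R314.SX
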